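import Pool.Agent.T2H61.CP.Cart

/-!
# The rank of Cartesian products of families of graphs
-/

set_option autoImplicit false
set_option linter.unusedSectionVars false

namespace Pool.Agent.T2H61.CP

open Matrix Finset SimpleGraph Pool.Agent.H283R2.DR Pool.Agent.H789R5

variable {ι : Type} {V : ι → Type} (G : ∀ i, SimpleGraph (V i))

theorem edges_cart_le [Fintype ι] [∀ i, Finite (V i)] (w : ι → ℕ)
    (hw : ∀ i, 2 * (G i).edgeSet.ncard ≤ w i * Nat.card (V i)) :
    2 * (cart G).edgeSet.ncard ≤ (∑ i, w i) * Nat.card (∀ i, V i) := by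
  classical
  have : ∀ i, Fintype (V i) := fun i => Fintype.ofFinite _
  have h1 := sum_degrees_eq_twice_card_edges (cart G)
  have h2 : ∀ x : ∀ i, V i, (cart G).degree x ≤ ∑ i, (G i).degree (x i) := by
    intro x
    have h3 : (cart G).neighborFinset x ⊆
        univ.biUnion fun i => ((G i).neighborFinset (x i)).image (Function.update x i) := by
      intro y hy
      rw [mem_neighborFinset, cart_adj] at hy
      obtain ⟨i, hi, hi'⟩ := hy
      rw [mem_biUnion]
      refine ⟨i, mem_univ _, mem_image.2 ⟨y i, (mem_neighborFinset _ _ _).2 hi, ?_⟩⟩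
      funext j
      by_cases hj : j = i
      · subst hj
        rw [Function.update_self]
      · rw [Function.update_of_ne hj]
        exact hi' j hj
    calc (cart G).degree x ≤ _ := card_le_card h3
      _ ≤ ∑ i, (((G i).neighborFinset (x i)).image (Function.update x i)).card := card_biUnion_le
      _ ≤ _ := sum_le_sum fun i _ => card_image_le
  have h4 : ∀ i, ∑ x : ∀ i, V i, (G i).degree (x i) ≤ w i * Fintype.card (∀ i, V i) := by
    intro i
    have e := Equiv.piSplitAt i V
    have h5 : ∑ x : ∀ i, V i, (G i).degree (x i) =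
        ∑ x : V i × ∀ j : {j // j ≠ i}, V j, (G i).degree x.1 :=
      Fintype.sum_equiv (Equiv.piSplitAt i V) _ _ fun x => rfl
    have h6 : Fintype.card (∀ i, V i) = Fintype.card (V i) * Fintype.card (∀ j : {j // j ≠ i}, V j) := by
      rw [← Fintype.card_prod]
      exact Fintype.card_congr (Equiv.piSplitAt i V)
    have h7 := sum_degrees_eq_twice_card_edges (G i)
    have h8 := hw i
    rw [← coe_edgeFinset, Set.ncard_coe_finset, Nat.card_eq_fintype_card] at h8
    rw [h5, Fintype.sum_prod_type]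
    have h9 : ∀ v : V i, ∑ _y : ∀ j : {j // j ≠ i}, V j, (G i).degree v =
        Fintype.card (∀ j : {j // j ≠ i}, V j) * (G i).degree v := by
      intro v
      rw [Finset.sum_const, card_univ, smul_eq_mul]
    calc ∑ v : V i, ∑ _y : ∀ j : {j // j ≠ i}, V j, (G i).degree v
        = ∑ v : V i, Fintype.card (∀ j : {j // j ≠ i}, V j) * (G i).degree v :=
          sum_congr rfl fun v _ => h9 v
      _ = Fintype.card (∀ j : {j // j ≠ i}, V j) * (2 * (G i).edgeFinset.card) := by
          rw [← mul_sum, h7]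
      _ ≤ Fintype.card (∀ j : {j // j ≠ i}, V j) * (w i * Fintype.card (V i)) :=
          Nat.mul_le_mul_left _ h8
      _ = w i * Fintype.card (∀ i, V i) := by rw [h6]; ring
  rw [← coe_edgeFinset, Set.ncard_coe_finset, ← h1, Nat.card_eq_fintype_card, sum_mul]
  calc ∑ x, (cart G).degree x ≤ ∑ x : ∀ i, V i, ∑ i, (G i).degree (x i) :=
        sum_le_sum fun x _ => h2 x
    _ = ∑ i, ∑ x : ∀ i, V i, (G i).degree (x i) := sum_comm
    _ ≤ _ := sum_le_sum fun i _ => h4 i

/-- a factor is an edge or a graph with exactly one cycle -/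
def Thin {W : Type} (H : SimpleGraph W) : Prop :=
  H.Connected ∧ ((H.IsAcyclic ∧ Nat.card W = 2) ∨ (¬ H.IsAcyclic ∧ H.edgeSet.ncard = Nat.card W))

theorem Thin.edges {W : Type} [Finite W] {H : SimpleGraph W} (hH : Thin H) :
    (H.IsAcyclic → 2 * H.edgeSet.ncard ≤ 1 * Nat.card W) ∧
    (¬ H.IsAcyclic → 2 * H.edgeSet.ncard ≤ 2 * Nat.card W) := by
  refine ⟨fun h => ?_, fun h => ?_⟩
  · have h1 := (isTree_iff_connected_and_card.1 ⟨hH.1, h⟩).2
    rw [Nat.card_coe_set_eq] at h1
    rcases hH.2 with h2 | h2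
    · omega
    · exact absurd h h2.1
  · rcases hH.2 with h2 | h2
    · exact absurd h2.1 h
    · omega

theorem three_le {W : Type} [Finite W] {H : SimpleGraph W} (hH : H.Connected)
    (h : ¬ H.IsAcyclic) : 3 ≤ Nat.card W := by
  classical
  have := Fintype.ofFinite W
  have h1 := card_le_edges hH h
  have h2 := H.card_edgeFinset_le_card_choose_two
  rw [Nat.card_coe_set_eq, ← coe_edgeFinset, Set.ncard_coe_finset] at h1
  rw [Nat.card_eq_fintype_card] at h1 ⊢
  have h3 : 0 < Fintype.card W := Fintype.card_pos_iff.2 hH.nonempty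
  by_contra hc
  have h4 : Fintype.card W = 1 ∨ Fintype.card W = 2 := by omega
  have c1 : Nat.choose 1 2 = 0 := by decide
  have c2 : Nat.choose 2 2 = 1 := by decide
  rcases h4 with h4 | h4 <;> rw [h4] at h1 h2
  · rw [c1] at h2
    omega
  · rw [c2] at h2
    omega

theorem Thin.two_le {W : Type} [Finite W] {H : SimpleGraph W} (hH : Thin H) :
    2 ≤ Nat.card W := by
  by_cases h : H.IsAcyclic
  · rcases hH.2 with h2 | h2
    · omega
    · exact absurd h h2.1
  · have := three_le hH.1 h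
    omega

theorem thin_edges_wt [∀ i, Finite (V i)] (hT : ∀ i, Thin (G i)) (i : ι) :
    2 * (G i).edgeSet.ncard ≤ wt G i * Nat.card (V i) := by
  unfold wt
  split_ifs with h
  · exact (hT i).edges.1 h
  · exact (hT i).edges.2 h

theorem edges_thin [Fintype ι] [∀ i, Finite (V i)] (hT : ∀ i, Thin (G i)) :
    2 * (cart G).edgeSet.ncard ≤ (∑ i, wt G i) * Nat.card (∀ i, V i) :=
  edges_cart_le G (wt G) (thin_edges_wt G hT)

theorem acyclic_of_le_one [Fintype ι] [∀ i, Finite (V i)] (hT : ∀ i, Thin (G i))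
    (hw : ∑ i, wt G i ≤ 1) : (cart G).IsAcyclic := by
  have h1 := edges_thin G hT
  have h2 := cart_connected G fun i => (hT i).1
  have h3 := h2.card_vert_le_card_edgeSet_add_one
  have h4 : 0 < Nat.card (∀ i, V i) := by
    have := h2.nonempty
    exact Nat.card_pos
  rw [Nat.card_coe_set_eq] at h3
  refine (isTree_iff_connected_and_card.2 ⟨h2, ?_⟩).isAcyclic
  rw [Nat.card_coe_set_eq]
  have h5 : (∑ i, wt G i) * Nat.card (∀ i, V i) ≤ 1 * Nat.card (∀ i, V i) :=
    Nat.mul_le_mul_right _ hw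
  omega

theorem edges_of_le_two [Fintype ι] [∀ i, Finite (V i)] (hT : ∀ i, Thin (G i))
    (hw : ∑ i, wt G i ≤ 2) : Nat.card (cart G).edgeSet ≤ Nat.card (∀ i, V i) := by
  have h1 := edges_thin G hT
  rw [Nat.card_coe_set_eq]
  have h5 : (∑ i, wt G i) * Nat.card (∀ i, V i) ≤ 2 * Nat.card (∀ i, V i) :=
    Nat.mul_le_mul_right _ hw
  omega

/-- **Independence for families.** -/
theorem indep_cart [Fintype ι] [DecidableEq ι] [∀ i, Fintype (V i)] (hT : ∀ i, Thin (G i))
    (hw : ∑ i, wt G i ≤ 5) : genRank 3 (cart G) = (cart G).edgeSet.ncard := by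
  classical
  obtain ⟨s, hs1, hs2⟩ := split_le (wt G) (wt_cases G) (m := 3) (by norm_num) hw
  let G' : ∀ i : {i // i ∉ s}, SimpleGraph (V i) := fun i => G i
  have e1 : ∑ i, wt G' i = ∑ i ∈ sᶜ, wt G i := sum_sub' (wt G)
  obtain ⟨t, ht1, ht2⟩ := split_le (wt G') (wt_cases G') (m := 1) (by norm_num) (by omega)
  let A : ∀ i : {i // i ∈ s}, SimpleGraph (V i) := fun i => G i
  let B : ∀ i : {i // i ∈ t}, SimpleGraph (V i) := fun i => G' i
  let C : ∀ i : {i // i ∉ t}, SimpleGraph (V i) := fun i => G' i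
  have eA : ∑ i, wt A i = ∑ i ∈ s, wt G i := sum_sub (wt G)
  have eB : ∑ i, wt B i = ∑ i ∈ t, wt G' i := sum_sub (wt G')
  have eC : ∑ i, wt C i = ∑ i ∈ tᶜ, wt G' i := sum_sub' (wt G')
  have hr := indep3 (cart_connected A fun i => (hT i).1) (cart_connected B fun i => (hT i).1)
    (cart_connected C fun i => (hT i).1)
    (edges_of_le_two A (fun i => hT i) (by omega))
    (edges_of_le_two B (fun i => hT i) (by omega))
    (acyclic_of_le_one C (fun i => hT i) (by omega))
  have e := (cartSplit G (· ∈ s)).trans (boxProdCongrRight _ (cartSplit G' (· ∈ t)))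
  rw [genRank_iso e, hr, ncard_edges_iso e]

theorem card_ge [Fintype ι] [∀ i, Finite (V i)] (hT : ∀ i, Thin (G i)) :
    3 ^ (∑ i, wt G i) ≤ Nat.card (∀ i, V i) ^ 2 := by
  rw [Nat.card_pi, ← Finset.prod_pow_eq_pow_sum, ← Finset.prod_pow]
  refine Finset.prod_le_prod (fun i _ => Nat.zero_le _) fun i _ => ?_
  have h2 := (hT i).two_le
  unfold wt
  split_ifs with h
  · nlinarith
  · have := three_le (hT i).1 h
    nlinarith

theorem rank_of_rigid {W : Type} [Fintype W] {H : SimpleGraph W} (h3 : 3 ≤ Fintype.card W) :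
    GenRigid 3 H ↔ genRank 3 H = 3 * Fintype.card W - 6 := by
  obtain ⟨p, hp⟩ := exists_mg W 3
  have h1 := genRank_add hp H
  have h2 := Pool.Agent.TH349.Rig.six_le hp h3 H
  rw [genRigid_iff hp h3 H]
  omega

/-- **Rigidity of families of thin graphs.** -/
theorem rigid_iff_cart [Fintype ι] [DecidableEq ι] [∀ i, Fintype (V i)] (hT : ∀ i, Thin (G i))
    (h4 : 4 ≤ Fintype.card (∀ i, V i)) : GenRigid 3 (cart G) ↔ 6 ≤ ∑ i, wt G i := by
  constructor
  · intro h
    by_contra hc
    rw [rank_of_rigid (by omega), indep_cart G hT (by omega)] at h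
    have h1 := edges_thin G hT
    have h2 := card_ge G hT
    rw [Nat.card_eq_fintype_card] at h1 h2
    generalize ∑ i, wt G i = w at *
    generalize Fintype.card (∀ i, V i) = n at *
    have hw : w ≤ 5 := by omega
    interval_cases w
    · omega
    · omega
    · omega
    · have : 6 ≤ n := by nlinarith
      omega
    · have : 9 ≤ n := by nlinarith
      omega
    · have : 15 ≤ n := by nlinarith
      omega
  · intro h
    exact rigid_cart G (fun i => (hT i).1) (fun i => (hT i).two_le) h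

theorem sum_wt [Fintype ι] : ∑ i, wt G i =
    2 * Nat.card {i // ¬ (G i).IsAcyclic} + Nat.card {i // (G i).IsAcyclic} := by
  classical
  rw [← Fintype.sum_subtype_add_sum_subtype (fun i => (G i).IsAcyclic) (wt G)]
  have h1 : ∀ i : {i // (G i).IsAcyclic}, wt G i = 1 := fun i => if_pos i.2
  have h2 : ∀ i : {i // ¬ (G i).IsAcyclic}, wt G i = 2 := fun i => if_neg i.2
  rw [sum_congr rfl fun i _ => h1 i, sum_congr rfl fun i _ => h2 i, Finset.sum_const,
    Finset.sum_const, card_univ, card_univ, Nat.card_eq_fintype_card, Nat.card_eq_fintype_card,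
    smul_eq_mul, smul_eq_mul]
  ring

theorem thin_of {W : Type} [Fintype W] {H : SimpleGraph W} (hH : H.Connected)
    (h : Fintype.card W = 2 ∨ H.edgeSet.ncard = Fintype.card W) : Thin H := by
  refine ⟨hH, ?_⟩
  rw [Nat.card_eq_fintype_card]
  by_cases hA : H.IsAcyclic
  · left
    refine ⟨hA, h.resolve_right fun h' => ?_⟩
    have h1 := (isTree_iff_connected_and_card.1 ⟨hH, hA⟩).2
    rw [Nat.card_coe_set_eq, Nat.card_eq_fintype_card] at h1
    omega
  · right
    refine ⟨hA, h.resolve_left fun h' => ?_⟩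
    have := three_le hH hA
    rw [Nat.card_eq_fintype_card] at this
    omega

theorem rank_le {W : Type} [Fintype W] (H : SimpleGraph W) : genRank 3 H ≤ H.edgeSet.ncard := by
  obtain ⟨p, hp⟩ := exists_mg W 3
  have h0 := genRank_add hp H
  have h1 := Pool.Agent.TH349.Rig.rank_le_edges H p
  omega

theorem rank_le' {W : Type} [Fintype W] (H : SimpleGraph W) (h3 : 3 ≤ Fintype.card W) :
    genRank 3 H ≤ 3 * Fintype.card W - 6 := by
  obtain ⟨p, hp⟩ := exists_mg W 3
  have h0 := genRank_add hp H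
  have h1 := Pool.Agent.TH349.Rig.six_le hp h3 H
  omega

/-- **The rank for three factors.** -/
theorem rank3 {V₁ V₂ V₃ : Type} [Fintype V₁] [Fintype V₂] [Fintype V₃] {G₁ : SimpleGraph V₁}
    {G₂ : SimpleGraph V₂} {G₃ : SimpleGraph V₃} (h1 : G₁.Connected) (h2 : G₂.Connected)
    (h3 : G₃.Connected) (e1 : G₁.edgeSet.ncard ≤ Fintype.card V₁)
    (e2 : G₂.edgeSet.ncard ≤ Fintype.card V₂) (e3 : G₃.edgeSet.ncard ≤ Fintype.card V₃)
    (hn : 3 ≤ Fintype.card (V₁ × (V₂ × V₃))) :
    genRank 3 (G₁ □ (G₂ □ G₃)) =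
      min (G₁ □ (G₂ □ G₃)).edgeSet.ncard (3 * Fintype.card (V₁ × (V₂ × V₃)) - 6) := by
  have l1 := rank_le (G₁ □ (G₂ □ G₃))
  have l2 := rank_le' (G₁ □ (G₂ □ G₃)) hn
  rw [← Nat.card_coe_set_eq, ← Nat.card_eq_fintype_card] at e1 e2 e3
  by_cases a3 : G₃.IsAcyclic
  · have := indep3 h1 h2 h3 e1 e2 a3
    omega
  by_cases a2 : G₂.IsAcyclic
  · have h := indep3 h3 h1 h2 e3 e1 a2
    have e : (G₃ □ (G₁ □ G₂)) ≃g (G₁ □ (G₂ □ G₃)) :=
      (boxProdComm _ _).trans (boxProdAssoc _ _ _)
    rw [genRank_iso e, ncard_edges_iso e] at h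
    omega
  by_cases a1 : G₁.IsAcyclic
  · have h := indep3 h2 h3 h1 e2 e3 a1
    have e : (G₂ □ (G₃ □ G₁)) ≃g (G₁ □ (G₂ □ G₃)) :=
      (boxProdAssoc _ _ _).symm.trans (boxProdComm _ _)
    rw [genRank_iso e, ncard_edges_iso e] at h
    omega
  · have h := (rank_of_rigid hn).1 (rigid3 h1 h2 h3 a1 a2 a3)
    omega

/-- **The rank for families.** -/
theorem rank_cart [Fintype ι] [DecidableEq ι] [∀ i, Fintype (V i)] (hT : ∀ i, Thin (G i))
    (hn : 3 ≤ Fintype.card (∀ i, V i)) :
    genRank 3 (cart G) = min (cart G).edgeSet.ncard (3 * Fintype.card (∀ i, V i) - 6) := by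
  have l1 := rank_le (cart G)
  have l2 := rank_le' (cart G) hn
  by_cases h : 6 ≤ ∑ i, wt G i
  · have := (rank_of_rigid hn).1 (rigid_cart G (fun i => (hT i).1) (fun i => (hT i).two_le) h)
    omega
  · have := indep_cart G hT (by omega)
    omega

end Pool.Agent.T2H61.CP
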