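import Pool.Agent.T2H61.CP.Ind

/-!
# Cartesian products of families of graphs
-/

set_option autoImplicit false
set_option linter.unusedSectionVars false

namespace Pool.Agent.T2H61.CP

open Matrix Finset SimpleGraph Pool.Agent.H283R2.DR Pool.Agent.H789R5

/-- The Cartesian product of a family of graphs: two points are adjacent when they differ in exactly
one coordinate, where they are adjacent. -/
def cart {ι : Type} {V : ι → Type} (G : ∀ i, SimpleGraph (V i)) : SimpleGraph (∀ i, V i) where
  Adj x y := ∃ i, (G i).Adj (x i) (y i) ∧ ∀ j, j ≠ i → x j = y j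
  symm := ⟨fun _ _ ⟨i, h, h'⟩ => ⟨i, h.symm, fun j hj => (h' j hj).symm⟩⟩
  loopless := ⟨fun _ ⟨i, h, _⟩ => (G i).loopless.irrefl _ h⟩

variable {ι : Type} {V : ι → Type} (G : ∀ i, SimpleGraph (V i))

theorem cart_adj {x y : ∀ i, V i} :
    (cart G).Adj x y ↔ ∃ i, (G i).Adj (x i) (y i) ∧ ∀ j, j ≠ i → x j = y j := Iff.rfl

/-- the copy of a factor through a point -/
def cartHom [DecidableEq ι] (z : ∀ i, V i) (i : ι) : G i →g cart G where
  toFun v := Function.update z i v
  map_rel' := by
    intro v w h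
    refine ⟨i, ?_, fun j hj => ?_⟩
    · rw [Function.update_self, Function.update_self]
      exact h
    · rw [Function.update_of_ne hj, Function.update_of_ne hj]

theorem cartHom_injective [DecidableEq ι] (z : ∀ i, V i) (i : ι) :
    Function.Injective (cartHom G z i) := Function.update_injective z i

theorem cart_connected [Finite ι] (hG : ∀ i, (G i).Connected) : (cart G).Connected := by
  classical
  have := Fintype.ofFinite ι
  have hne : ∀ i, Nonempty (V i) := fun i => (hG i).nonempty
  have : Nonempty (∀ i, V i) := inferInstance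
  refine ⟨fun x y => ?_⟩
  have key : ∀ s : Finset ι, (cart G).Reachable x (s.piecewise y x) := by
    intro s
    induction s using Finset.induction_on with
    | empty => rw [Finset.piecewise_empty]
    | insert a s ha ih =>
      refine ih.trans ?_
      rw [Finset.piecewise_insert]
      have h := ((hG a).preconnected (s.piecewise y x a) (y a)).map
        (cartHom G (s.piecewise y x) a)
      have e : cartHom G (s.piecewise y x) a (s.piecewise y x a) = s.piecewise y x :=
        Function.update_eq_self a _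
      rw [e] at h
      exact h
  have := key univ
  rwa [Finset.piecewise_univ] at this

theorem cart_cyclic_of_factor (hG : ∀ i, (G i).Connected) {i : ι} (hi : ¬ (G i).IsAcyclic) :
    ¬ (cart G).IsAcyclic := by
  classical
  have hne : ∀ i, Nonempty (V i) := fun i => (hG i).nonempty
  obtain ⟨z⟩ : Nonempty (∀ i, V i) := inferInstance
  intro h
  exact hi (h.comap (cartHom G z i) (cartHom_injective G z i))

theorem square_cyclic :
    ¬ ((⊤ : SimpleGraph (Fin 2)) □ (⊤ : SimpleGraph (Fin 2))).IsAcyclic := by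
  refine not_acyclic_of_card (connected_top.boxProd connected_top) ?_
  have h : (⊤ : SimpleGraph (Fin 2)).edgeSet.ncard = 1 := by
    rw [← coe_edgeFinset, Set.ncard_coe_finset]
    decide
  rw [Nat.card_coe_set_eq, edges_boxProd, h, Nat.card_prod, Nat.card_eq_fintype_card,
    Fintype.card_fin]

theorem cart_cyclic_of_edges (hne : ∀ i, Nonempty (V i)) {i j : ι} (hij : i ≠ j)
    {a b : V i} (hab : (G i).Adj a b) {c d : V j} (hcd : (G j).Adj c d) :
    ¬ (cart G).IsAcyclic := by
  classical
  obtain ⟨z⟩ : Nonempty (∀ i, V i) := inferInstance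
  intro h
  let α : Fin 2 → V i := ![a, b]
  let β : Fin 2 → V j := ![c, d]
  have hα : ∀ s t : Fin 2, s ≠ t → (G i).Adj (α s) (α t) := by
    intro s t hst
    fin_cases s <;> fin_cases t
    · exact absurd rfl hst
    · exact hab
    · exact hab.symm
    · exact absurd rfl hst
  have hβ : ∀ s t : Fin 2, s ≠ t → (G j).Adj (β s) (β t) := by
    intro s t hst
    fin_cases s <;> fin_cases t
    · exact absurd rfl hst
    · exact hcd
    · exact hcd.symm
    · exact absurd rfl hst
  let f : ((⊤ : SimpleGraph (Fin 2)) □ (⊤ : SimpleGraph (Fin 2))) →g cart G :=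
    { toFun := fun x => Function.update (Function.update z i (α x.1)) j (β x.2)
      map_rel' := by
        rintro ⟨s, t⟩ ⟨s', t'⟩ hst
        rw [boxProd_adj] at hst
        rcases hst with ⟨h1, h2⟩ | ⟨h1, h2⟩
        · refine ⟨i, ?_, fun k hk => ?_⟩
          · rw [Function.update_of_ne hij, Function.update_of_ne hij, Function.update_self,
              Function.update_self]
            exact hα _ _ h1
          · by_cases hkj : k = j
            · subst hkj
              simp only [Function.update_self]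
              exact congrArg β h2
            · rw [Function.update_of_ne hkj, Function.update_of_ne hkj, Function.update_of_ne hk,
                Function.update_of_ne hk]
        · refine ⟨j, ?_, fun k hk => ?_⟩
          · rw [Function.update_self, Function.update_self]
            exact hβ _ _ h1
          · rw [Function.update_of_ne hk, Function.update_of_ne hk]
            have h2' : s = s' := h2
            rw [h2'] }
  have hf : Function.Injective f := by
    rintro ⟨s, t⟩ ⟨s', t'⟩ hst
    have e1 := congrFun hst i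
    have e2 := congrFun hst j
    simp only [f, RelHom.coeFn_mk, Function.update_self, Function.update_of_ne hij] at e1 e2
    have h1 : s = s' := by
      by_contra hc
      exact (hα _ _ hc).ne e1
    have h2 : t = t' := by
      by_contra hc
      exact (hβ _ _ hc).ne e2
    rw [h1, h2]
  exact square_cyclic (h.comap f hf)

/-- splitting the index set -/
def cartSplit (p : ι → Prop) [DecidablePred p] :
    cart G ≃g (cart fun i : {i // p i} => G i) □ (cart fun i : {i // ¬ p i} => G i) where
  toEquiv := Equiv.piEquivPiSubtypeProd p V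
  map_rel_iff' := by
    intro x y
    rw [boxProd_adj, cart_adj, cart_adj, cart_adj]
    constructor
    · rintro (⟨⟨i, h1, h2⟩, h3⟩ | ⟨⟨i, h1, h2⟩, h3⟩)
      · refine ⟨i, h1, fun j hj => ?_⟩
        by_cases hp : p j
        · exact h2 ⟨j, hp⟩ (fun h => hj (congrArg Subtype.val h))
        · exact congrFun h3 ⟨j, hp⟩
      · refine ⟨i, h1, fun j hj => ?_⟩
        by_cases hp : p j
        · exact congrFun h3 ⟨j, hp⟩
        · exact h2 ⟨j, hp⟩ (fun h => hj (congrArg Subtype.val h))
    · rintro ⟨i, h1, h2⟩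
      by_cases hp : p i
      · refine Or.inl ⟨⟨⟨i, hp⟩, h1, fun j hj => h2 j fun h => hj (Subtype.ext h)⟩, ?_⟩
        funext j
        exact h2 j fun h => j.2 (h ▸ hp)
      · refine Or.inr ⟨⟨⟨i, hp⟩, h1, fun j hj => h2 j fun h => hj (Subtype.ext h)⟩, ?_⟩
        funext j
        exact h2 j fun h => hp (h ▸ j.2)

def boxProdCongrRight {A B C : Type} (F : SimpleGraph A) {H : SimpleGraph B} {K : SimpleGraph C}
    (e : H ≃g K) : SimpleGraph.boxProd F H ≃g SimpleGraph.boxProd F K where
  toEquiv := Equiv.prodCongr (Equiv.refl A) e.toEquiv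
  map_rel_iff' := by
    intro x y
    rw [boxProd_adj, boxProd_adj]
    show F.Adj x.1 y.1 ∧ e x.2 = e y.2 ∨ K.Adj (e x.2) (e y.2) ∧ x.1 = y.1 ↔ _
    rw [e.map_adj_iff, e.injective.eq_iff]

/-! ### Weights -/

section weight

open Classical in
/-- the weight of a factor: one for a tree, two for a graph with a cycle -/
noncomputable def wt (i : ι) : ℕ := if (G i).IsAcyclic then 1 else 2

theorem wt_cases (i : ι) : wt G i = 1 ∨ wt G i = 2 := by
  unfold wt
  split_ifs
  · exact Or.inl rfl
  · exact Or.inr rfl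

theorem exists_edge {W : Type} [Finite W] {H : SimpleGraph W} (hH : H.Connected)
    (h2 : 2 ≤ Nat.card W) : ∃ a b, H.Adj a b := by
  have : Nontrivial W := Finite.one_lt_card_iff_nontrivial.1 h2
  obtain ⟨a, b, hab⟩ := exists_pair_ne W
  obtain ⟨c, hc⟩ := hH.preconnected.exists_adj_of_nontrivial a
  exact ⟨a, c, hc⟩

theorem cart_cyclic [Fintype ι] [∀ i, Finite (V i)] (hG : ∀ i, (G i).Connected)
    (h2 : ∀ i, 2 ≤ Nat.card (V i)) (hw : 2 ≤ ∑ i, wt G i) : ¬ (cart G).IsAcyclic := by
  classical
  by_cases hc : ∃ i, ¬ (G i).IsAcyclic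
  · obtain ⟨i, hi⟩ := hc
    exact cart_cyclic_of_factor G hG hi
  push Not at hc
  have h1 : ∑ i, wt G i = Fintype.card ι := by
    rw [← card_univ, card_eq_sum_ones]
    exact sum_congr rfl fun i _ => if_pos (hc i)
  rw [h1] at hw
  obtain ⟨i, j, hij⟩ := Fintype.exists_pair_of_one_lt_card hw
  obtain ⟨a, b, hab⟩ := exists_edge (hG i) (h2 i)
  obtain ⟨c, d, hcd⟩ := exists_edge (hG j) (h2 j)
  exact cart_cyclic_of_edges G (fun i => (hG i).nonempty) hij hab hcd

theorem split [Fintype ι] (w : ι → ℕ) (hw : ∀ i, w i = 1 ∨ w i = 2) (h : 2 ≤ ∑ i, w i) :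
    ∃ s : Finset ι, ∑ i ∈ s, w i = 2 := by
  classical
  by_cases hc : ∃ i, w i = 2
  · obtain ⟨i, hi⟩ := hc
    exact ⟨{i}, by rw [Finset.sum_singleton, hi]⟩
  push Not at hc
  have h1 : ∀ i, w i = 1 := fun i => (hw i).resolve_right (hc i)
  have h2 : ∑ i, w i = Fintype.card ι := by
    rw [← card_univ, card_eq_sum_ones]
    exact sum_congr rfl fun i _ => h1 i
  rw [h2, ← card_univ] at h
  obtain ⟨s, _, hs⟩ := Finset.exists_subset_card_eq h
  refine ⟨s, ?_⟩
  rw [sum_congr rfl fun i _ => h1 i, ← card_eq_sum_ones, hs]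

theorem split_sub [Fintype ι] [DecidableEq ι] (w : ι → ℕ) (hw : ∀ i, w i = 1 ∨ w i = 2)
    (h : 2 ≤ ∑ i, w i) : ∃ s : Finset ι, ∑ i ∈ s, w i = 2 ∧ ∑ i ∈ sᶜ, w i + 2 = ∑ i, w i := by
  obtain ⟨s, hs⟩ := split w hw h
  refine ⟨s, hs, ?_⟩
  rw [← Finset.sum_add_sum_compl s w, hs, add_comm]

theorem split_le [Fintype ι] [DecidableEq ι] (w : ι → ℕ) (hw : ∀ i, w i = 1 ∨ w i = 2) {m : ℕ}
    (hm : 1 ≤ m) (h : ∑ i, w i ≤ m + 2) :
    ∃ s : Finset ι, ∑ i ∈ s, w i ≤ 2 ∧ ∑ i ∈ sᶜ, w i ≤ m := by
  by_cases h2 : 2 ≤ ∑ i, w i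
  · obtain ⟨p, h3, h4⟩ := split_sub w hw h2
    exact ⟨p, h3.le, by omega⟩
  · refine ⟨∅, by simp, ?_⟩
    rw [Finset.compl_empty]
    omega

theorem sum_sub {s : Finset ι} [Fintype {i // i ∈ s}] (w : ι → ℕ) :
    ∑ i : {i // i ∈ s}, w i = ∑ i ∈ s, w i :=
  (Finset.sum_subtype s (fun _ => Iff.rfl) w).symm

theorem sum_sub' [Fintype ι] [DecidableEq ι] {s : Finset ι} [Fintype {i // i ∉ s}] (w : ι → ℕ) :
    ∑ i : {i // i ∉ s}, w i = ∑ i ∈ sᶜ, w i :=
  (Finset.sum_subtype sᶜ (fun _ => mem_compl) w).symm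

/-- **Rigidity of products of families.** -/
theorem rigid_cart [Fintype ι] [∀ i, Finite (V i)] (hG : ∀ i, (G i).Connected)
    (h2 : ∀ i, 2 ≤ Nat.card (V i)) (hw : 6 ≤ ∑ i, wt G i) : GenRigid 3 (cart G) := by
  classical
  obtain ⟨s, hs1, hs2⟩ := split_sub (wt G) (wt_cases G) (by omega)
  let G' : ∀ i : {i // i ∉ s}, SimpleGraph (V i) := fun i => G i
  have e1 : ∑ i, wt G' i = ∑ i ∈ sᶜ, wt G i := sum_sub' (wt G)
  obtain ⟨t, ht1, ht2⟩ := split_sub (wt G') (wt_cases G') (by omega)
  let A : ∀ i : {i // i ∈ s}, SimpleGraph (V i) := fun i => G i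
  let B : ∀ i : {i // i ∈ t}, SimpleGraph (V i) := fun i => G' i
  let C : ∀ i : {i // i ∉ t}, SimpleGraph (V i) := fun i => G' i
  have eA : ∑ i, wt A i = ∑ i ∈ s, wt G i := sum_sub (wt G)
  have eB : ∑ i, wt B i = ∑ i ∈ t, wt G' i := sum_sub (wt G')
  have eC : ∑ i, wt C i = ∑ i ∈ tᶜ, wt G' i := sum_sub' (wt G')
  have hr := rigid3 (cart_connected A fun i => hG i) (cart_connected B fun i => hG i)
    (cart_connected C fun i => hG i)
    (cart_cyclic A (fun i => hG i) (fun i => h2 i) (by omega))
    (cart_cyclic B (fun i => hG i) (fun i => h2 i) (by omega))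
    (cart_cyclic C (fun i => hG i) (fun i => h2 i) (by omega))
  exact genRigid_iso ((cartSplit G (· ∈ s)).trans (boxProdCongrRight _ (cartSplit G' (· ∈ t)))).symm
    hr

end weight

end Pool.Agent.T2H61.CP
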