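import Pool.Agent.T2H61.CP.Main

/-!
# Products with a tree factor: the edges are independent
-/

set_option autoImplicit false
set_option linter.unusedSectionVars false

namespace Pool.Agent.T2H61.CP

open Matrix Finset SimpleGraph Pool.Agent.H283R2.DR Pool.Agent.H789R5

section iso

variable {V W : Type} [Fintype V] [Fintype W] {d : ℕ}

theorem mo_iso {G : SimpleGraph V} {H : SimpleGraph W} (e : G ≃g H) (p : W → Fin d → ℝ) :
    mo G (fun v => p (e v)) = mo H p := by
  let L : (W → Fin d → ℝ) ≃ₗ[ℝ] (V → Fin d → ℝ) :=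
    LinearEquiv.funCongrLeft ℝ (Fin d → ℝ) e.toEquiv
  have h : (Mot H p).map (L : (W → Fin d → ℝ) →ₗ[ℝ] (V → Fin d → ℝ)) =
      Mot G (fun v => p (e v)) := by
    ext q
    rw [mem_mot]
    constructor
    · rintro ⟨q', hq', rfl⟩ u v huv
      exact (mem_mot _ p q').1 hq' _ _ (e.map_adj_iff.2 huv)
    · intro hq
      refine ⟨fun w => q (e.symm w), ?_, ?_⟩
      · rw [SetLike.mem_coe, mem_mot]
        intro u v huv
        have := hq (e.symm u) (e.symm v) (e.symm.map_adj_iff.2 huv)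
        simpa using this
      · funext v
        show q (e.symm (e v)) = q v
        rw [RelIso.symm_apply_apply]
  unfold mo
  rw [← h]
  exact LinearEquiv.finrank_map_eq L _

theorem genRank_iso {G : SimpleGraph V} {H : SimpleGraph W} (e : G ≃g H) :
    genRank d G = genRank d H := by
  obtain ⟨p, hp⟩ := exists_mg V d
  obtain ⟨q, hq⟩ := exists_mg W d
  have h1 := genRank_add hp G
  have h2 := genRank_add hq H
  have h3 := mo_iso e q
  have h4 := mo_iso e.symm p
  have h5 := hp.min G (fun v => q (e v))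
  have h6 := hq.min H (fun w => p (e.symm w))
  have h7 : Fintype.card V = Fintype.card W := Fintype.card_congr e.toEquiv
  rw [h7] at h1
  omega

theorem ncard_edges_iso {G : SimpleGraph V} {H : SimpleGraph W} (e : G ≃g H) :
    G.edgeSet.ncard = H.edgeSet.ncard := by
  rw [← Nat.card_coe_set_eq, ← Nat.card_coe_set_eq]
  exact Nat.card_congr e.mapEdgeSet

end iso

/-- the number of edges of a Cartesian product -/
theorem edges_boxProd {V W : Type} [Finite V] [Finite W] (G : SimpleGraph V) (H : SimpleGraph W) :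
    (G □ H).edgeSet.ncard = G.edgeSet.ncard * Nat.card W + Nat.card V * H.edgeSet.ncard := by
  classical
  have := Fintype.ofFinite V
  have := Fintype.ofFinite W
  have h1 := sum_degrees_eq_twice_card_edges (G □ H)
  have h2 := sum_degrees_eq_twice_card_edges G
  have h3 := sum_degrees_eq_twice_card_edges H
  have h4 : ∑ x : V × W, (G.degree x.1 + H.degree x.2) = 2 * (G □ H).edgeFinset.card := by
    rw [← h1]
    refine sum_congr rfl fun x _ => ?_
    symm
    convert degree_boxProd x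
  have h5 : ∑ x : V × W, G.degree x.1 = Fintype.card W * (2 * G.edgeFinset.card) := by
    rw [Fintype.sum_prod_type, ← h2, mul_sum]
    refine sum_congr rfl fun x _ => ?_
    show ∑ _y : W, G.degree x = _
    rw [Finset.sum_const, card_univ, smul_eq_mul]
  have h6 : ∑ x : V × W, H.degree x.2 = Fintype.card V * (2 * H.edgeFinset.card) := by
    rw [Fintype.sum_prod_type, ← h3]
    show ∑ _x : V, ∑ y : W, H.degree y = _
    rw [Finset.sum_const, card_univ, smul_eq_mul]
  rw [sum_add_distrib, h5, h6] at h4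
  rw [← coe_edgeFinset, ← coe_edgeFinset, ← coe_edgeFinset, Set.ncard_coe_finset,
    Set.ncard_coe_finset, Set.ncard_coe_finset, Nat.card_eq_fintype_card, Nat.card_eq_fintype_card]
  nlinarith [h4]

/-- a connected graph with a cycle has at least as many edges as vertices -/
theorem card_le_edges {V : Type} [Finite V] {G : SimpleGraph V} (hG : G.Connected)
    (h : ¬ G.IsAcyclic) : Nat.card V ≤ Nat.card G.edgeSet := by
  by_contra hc
  have h1 := hG.card_vert_le_card_edgeSet_add_one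
  exact h (isTree_iff_connected_and_card.2 ⟨hG, by omega⟩).isAcyclic

section uni

variable {V : Type} (m : ℕ) (T : SimpleGraph V) (r : V)

/-- `m` copies of a graph, their roots joined into a cycle -/
def uni : SimpleGraph (Fin m × V) :=
  ((⊥ : SimpleGraph (Fin m)) □ T) ⊔ (cycleGraph m).map (⟨fun i => (i, r), fun _ _ h =>
    congrArg Prod.fst h⟩ : Fin m ↪ Fin m × V)

theorem uni_connected (hm : 3 ≤ m) (hT : T.Connected) : (uni m T r).Connected := by
  obtain ⟨k, rfl⟩ : ∃ k, m = k + 1 := ⟨m - 1, by omega⟩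
  have : Nonempty (Fin (k + 1) × V) := ⟨(0, r)⟩
  refine ⟨?_⟩
  have h1 : ∀ (i : Fin (k + 1)) (v w : V), (uni (k + 1) T r).Reachable (i, v) (i, w) := by
    intro i v w
    obtain ⟨p⟩ := hT.preconnected v w
    have := (p.boxProdRight (⊥ : SimpleGraph (Fin (k + 1))) i).reachable
    exact this.mono le_sup_left
  have h2 : ∀ i j : Fin (k + 1), (uni (k + 1) T r).Reachable (i, r) (j, r) := by
    intro i j
    have h := (cycleGraph_connected (n := k)).preconnected i j
    have h' := h.map ((Embedding.map (⟨fun i => (i, r), fun _ _ h =>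
      congrArg Prod.fst h⟩ : Fin (k + 1) ↪ Fin (k + 1) × V) (cycleGraph (k + 1))).toHom)
    exact h'.mono le_sup_right
  rintro ⟨i, v⟩ ⟨j, w⟩
  exact (h1 i v r).trans ((h2 i j).trans (h1 j r w))

theorem uni_edges_le [Finite V] (hm : 3 ≤ m) (hT : T.Connected) (hA : T.IsAcyclic) :
    Nat.card (uni m T r).edgeSet ≤ Nat.card (Fin m × V) := by
  have h0 := (isTree_iff_connected_and_card.1 ⟨hT, hA⟩).2
  have h1 := edges_boxProd (⊥ : SimpleGraph (Fin m)) T
  have h2 : ((cycleGraph m).map (⟨fun i => (i, r), fun _ _ h =>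
    congrArg Prod.fst h⟩ : Fin m ↪ Fin m × V)).edgeSet.ncard = m := by
    rw [edgeSet_map, Set.ncard_image_of_injective _ (Function.Embedding.injective _)]
    obtain ⟨k, rfl⟩ : ∃ k, m = k + 3 := ⟨m - 3, by omega⟩
    have h3 := sum_degrees_eq_twice_card_edges (cycleGraph (k + 3))
    simp only [cycleGraph_degree_three_le, sum_const, card_univ, Fintype.card_fin,
      smul_eq_mul] at h3
    rw [← coe_edgeFinset, Set.ncard_coe_finset]
    omega
  rw [Nat.card_coe_set_eq] at h0
  rw [Nat.card_coe_set_eq, uni, edgeSet_sup]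
  refine (Set.ncard_union_le _ _).trans ?_
  rw [h1, h2, edgeSet_bot, Set.ncard_empty, zero_mul, zero_add, Nat.card_prod, Nat.card_eq_fintype_card,
    Fintype.card_fin, ← h0]
  exact le_of_eq (by ring)

theorem uni_cyclic (hm : 3 ≤ m) : ¬ (uni m T r).IsAcyclic := by
  intro h
  obtain ⟨k, rfl⟩ : ∃ k, m = k + 3 := ⟨m - 3, by omega⟩
  have h1 : ((cycleGraph (k + 3)).map (⟨fun i => (i, r), fun _ _ h =>
    congrArg Prod.fst h⟩ : Fin (k + 3) ↪ Fin (k + 3) × V)).IsAcyclic := h.anti le_sup_right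
  have h2 : (cycleGraph (k + 3)).IsAcyclic :=
    h1.comap (Embedding.map (⟨fun i => (i, r), fun _ _ h =>
      congrArg Prod.fst h⟩ : Fin (k + 3) ↪ Fin (k + 3) × V) (cycleGraph (k + 3))).toHom
      (Embedding.map _ _).injective
  exact h2 _ cycleGraph.isCycle_cycle

/-- the copies -/
def cpEmb (i : Fin m) : V ↪ Fin m × V := ⟨fun v => (i, v), fun _ _ h => congrArg Prod.snd h⟩

theorem map_cpEmb_le (i : Fin m) : T.map (cpEmb (V := V) m i) ≤ uni m T r := by
  intro a b hab
  rw [SimpleGraph.map_adj] at hab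
  obtain ⟨u, v, huv, rfl, rfl⟩ := hab
  refine Or.inl ?_
  show ((⊥ : SimpleGraph (Fin m)) □ T).Adj (i, u) (i, v)
  rw [boxProd_adj]
  exact Or.inr ⟨huv, rfl⟩

end uni

theorem exists_copies {V : Type} [Finite V] {T : SimpleGraph V} (hT : T.Connected)
    (hA : T.IsAcyclic) {m : ℕ} (hm : 3 ≤ m) :
    ∃ (V' : Type) (_ : Finite V') (G' : SimpleGraph V') (f : Fin m → (V ↪ V')), G'.Connected ∧
      ¬ G'.IsAcyclic ∧ Nat.card G'.edgeSet ≤ Nat.card V' ∧
      (∀ i j u v, f i u = f j v → i = j) ∧ ∀ i, T.map (f i) ≤ G' := by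
  obtain ⟨r⟩ := hT.nonempty
  exact ⟨Fin m × V, inferInstance, uni m T r, cpEmb m, uni_connected m T r hm hT,
    uni_cyclic m T r hm, uni_edges_le m T r hm hT hA,
    fun i j u v h => congrArg Prod.fst h, map_cpEmb_le m T r⟩

theorem exists_super {V : Type} [Finite V] {G : SimpleGraph V} (hG : G.Connected)
    (hE : Nat.card G.edgeSet ≤ Nat.card V) :
    ∃ (V' : Type) (_ : Finite V') (G' : SimpleGraph V') (f : V ↪ V'), G'.Connected ∧
      ¬ G'.IsAcyclic ∧ Nat.card G'.edgeSet ≤ Nat.card V' ∧ G.map f ≤ G' := by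
  by_cases hA : G.IsAcyclic
  · obtain ⟨V', hV, G', f, h1, h2, h3, _, h4⟩ := exists_copies hG hA (le_refl 3)
    exact ⟨V', hV, G', f 0, h1, h2, h3, h4 0⟩
  · refine ⟨V, inferInstance, G, Function.Embedding.refl V, hG, hA, hE, ?_⟩
    intro a b hab
    rw [SimpleGraph.map_adj] at hab
    obtain ⟨u, v, huv, rfl, rfl⟩ := hab
    exact huv

/-- **Independence.** In the product of two connected graphs with at most one cycle each and a tree
the edges are independent. -/
theorem indep3 {V₁ V₂ V₃ : Type} [Fintype V₁] [Fintype V₂] [Fintype V₃] {G₁ : SimpleGraph V₁}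
    {G₂ : SimpleGraph V₂} {G₃ : SimpleGraph V₃} (h1 : G₁.Connected) (h2 : G₂.Connected)
    (h3 : G₃.Connected) (e1 : Nat.card G₁.edgeSet ≤ Nat.card V₁)
    (e2 : Nat.card G₂.edgeSet ≤ Nat.card V₂) (a3 : G₃.IsAcyclic) :
    genRank 3 (G₁ □ (G₂ □ G₃)) = (G₁ □ (G₂ □ G₃)).edgeSet.ncard := by
  classical
  obtain ⟨W₁, _, H₁, f₁, k1, k1', k1'', k1'''⟩ := exists_super h1 e1
  obtain ⟨W₂, _, H₂, f₂, k2, k2', k2'', k2'''⟩ := exists_super h2 e2
  obtain ⟨W₃, _, H₃, f₃, k3, k3', k3'', hdis, k3'''⟩ := exists_copies h3 a3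
    (m := 7) (by norm_num)
  have := Fintype.ofFinite W₁
  have := Fintype.ofFinite W₂
  have := Fintype.ofFinite W₃
  have hne1 := k1.nonempty
  have hne2 := k2.nonempty
  have hne3 := k3.nonempty
  refine indep_of_copies (H₁ □ (H₂ □ H₃)) (G₁ □ (G₂ □ G₃))
    (fun i => f₁.prodMap (f₂.prodMap (f₃ i))) ?_ ?_ (rigid3 k1 k2 k3 k1' k2' k3') ?_ ?_
  · rintro i j ⟨u1, u2, u3⟩ ⟨v1, v2, v3⟩ h
    have h' : f₃ i u3 = f₃ j v3 := congrArg (fun x => x.2.2) h
    exact hdis i j _ _ h'
  · intro i a b hab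
    rw [SimpleGraph.map_adj] at hab
    obtain ⟨u, v, huv, rfl, rfl⟩ := hab
    have l1 : ∀ x y, G₁.Adj x y → H₁.Adj (f₁ x) (f₁ y) := fun x y h => k1''' (map_adj_apply.2 h)
    have l2 : ∀ x y, G₂.Adj x y → H₂.Adj (f₂ x) (f₂ y) := fun x y h => k2''' (map_adj_apply.2 h)
    have l3 : ∀ x y, G₃.Adj x y → H₃.Adj (f₃ i x) (f₃ i y) :=
      fun x y h => k3''' i (map_adj_apply.2 h)
    obtain ⟨u1, u2, u3⟩ := u
    obtain ⟨v1, v2, v3⟩ := v
    show (H₁ □ (H₂ □ H₃)).Adj (f₁ u1, f₂ u2, f₃ i u3) (f₁ v1, f₂ v2, f₃ i v3)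
    simp only [boxProd_adj, Prod.mk.injEq] at huv ⊢
    rcases huv with ⟨h, h', h''⟩ | ⟨⟨h, h'⟩ | ⟨h, h'⟩, h''⟩
    · subst h' h''
      exact Or.inl ⟨l1 _ _ h, rfl, rfl⟩
    · subst h' h''
      exact Or.inr ⟨Or.inl ⟨l2 _ _ h, rfl⟩, rfl⟩
    · subst h' h''
      exact Or.inr ⟨Or.inr ⟨l3 _ _ h, rfl⟩, rfl⟩
  · rw [edges_boxProd, edges_boxProd]
    rw [Nat.card_coe_set_eq] at k1'' k2'' k3''
    simp only [Nat.card_prod, Nat.card_eq_fintype_card, Fintype.card_prod] at *
    have m1 : H₁.edgeSet.ncard * (Fintype.card W₂ * Fintype.card W₃) ≤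
      Fintype.card W₁ * (Fintype.card W₂ * Fintype.card W₃) := Nat.mul_le_mul_right _ k1''
    have m2 : Fintype.card W₁ * (H₂.edgeSet.ncard * Fintype.card W₃) ≤
      Fintype.card W₁ * (Fintype.card W₂ * Fintype.card W₃) :=
      Nat.mul_le_mul_left _ (Nat.mul_le_mul_right _ k2'')
    have m3 : Fintype.card W₁ * (Fintype.card W₂ * H₃.edgeSet.ncard) ≤
      Fintype.card W₁ * (Fintype.card W₂ * Fintype.card W₃) :=
      Nat.mul_le_mul_left _ (Nat.mul_le_mul_left _ k3'')
    rw [mul_add]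
    omega
  · have n1 := card_le_edges k1 k1'
    have n2 : 7 ≤ Fintype.card W₃ := by
      obtain ⟨v⟩ := h3.nonempty
      have : Function.Injective (fun i : Fin 7 => f₃ i v) := fun i j h => hdis i j _ _ h
      have := Fintype.card_le_of_injective _ this
      simpa using this
    rw [Fintype.card_prod, Fintype.card_prod]
    have m1 : 0 < Fintype.card W₁ := Fintype.card_pos
    have m2 : 0 < Fintype.card W₂ := Fintype.card_pos
    calc 3 ≤ Fintype.card W₃ := by omega
      _ = 1 * (1 * Fintype.card W₃) := by ring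
      _ ≤ _ := Nat.mul_le_mul m1 (Nat.mul_le_mul m2 le_rfl)

end Pool.Agent.T2H61.CP
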