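import Mathlib

/-!
# Connected graphs with a cycle: growth from a cycle, planar labels
-/

set_option autoImplicit false

namespace Pool.Agent.T2H61.CP

variable {V : Type}

theorem grow [Finite V] {G : SimpleGraph V} (hG : G.Connected) (P : Set V → Prop) (S0 : Set V)
    (hne : S0.Nonempty) (h0 : P S0)
    (hstep : ∀ S : Set V, S0 ⊆ S → ∀ g ∈ S, ∀ y, y ∉ S → G.Adj g y → P S → P (insert y S)) :
    P Set.univ := by
  have key : ∀ n : ℕ, ∀ S : Set V, S0 ⊆ S → P S → Sᶜ.ncard = n → P Set.univ := by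
    intro n
    induction n using Nat.strong_induction_on with
    | _ n ih =>
      intro S hS hP hn
      by_cases hu : S = Set.univ
      · rwa [← hu]
      · obtain ⟨y0, hy0⟩ := (Set.ne_univ_iff_exists_notMem S).1 hu
        obtain ⟨g0, hg0⟩ := hne
        obtain ⟨w⟩ := hG.preconnected g0 y0
        obtain ⟨d, _, hd1, hd2⟩ := w.exists_boundary_dart S (hS hg0) hy0
        have h1 := hstep S hS d.fst hd1 d.snd hd2 d.adj hP
        refine ih (insert d.snd S)ᶜ.ncard ?_ (insert d.snd S) (hS.trans (Set.subset_insert _ _))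
          h1 rfl
        rw [← hn]
        refine Set.ncard_lt_ncard ?_ (Set.toFinite _)
        refine ⟨Set.compl_subset_compl.2 (Set.subset_insert _ _), fun h => ?_⟩
        exact h hd2 (Set.mem_insert _ _)
  exact key _ S0 subset_rfl h0 rfl

/-- `x 0, ..., x (a - 1)` is a cycle of length `a` -/
structure Cyc (G : SimpleGraph V) (a : ℕ) (x : ℕ → V) : Prop where
  three : 3 ≤ a
  inj : ∀ i < a, ∀ j < a, x i = x j → i = j
  adj : ∀ i < a, G.Adj (x i) (x (i + 1))
  per : x a = x 0

theorem exists_cyc {G : SimpleGraph V} (hG : ¬ G.IsAcyclic) : ∃ (a : ℕ) (x : ℕ → V), Cyc G a x := by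
  unfold SimpleGraph.IsAcyclic at hG
  push Not at hG
  obtain ⟨v, c, hc⟩ := hG
  refine ⟨c.length, c.getVert, hc.three_le_length, ?_, ?_, ?_⟩
  · intro i hi j hj hij
    refine hc.getVert_injOn' ?_ ?_ hij
    · show i ≤ c.length - 1
      omega
    · show j ≤ c.length - 1
      omega
  · intro i hi
    exact c.adj_getVert_succ hi
  · rw [c.getVert_length, c.getVert_zero]

open Classical in
/-- the index of a vertex of the cycle -/
noncomputable def idx (a : ℕ) (x : ℕ → V) (u : V) : ℕ :=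
  if h : ∃ i < a, x i = u then h.choose else 0

theorem idx_x {G : SimpleGraph V} {a : ℕ} {x : ℕ → V} (h : Cyc G a x) {i : ℕ} (hi : i < a) :
    idx a x (x i) = i := by
  have h1 : ∃ j < a, x j = x i := ⟨i, hi, rfl⟩
  unfold idx
  rw [dif_pos h1]
  exact h.inj _ h1.choose_spec.1 _ hi h1.choose_spec.2

/-- Planar labels of a connected graph which contains a cycle: every vertex has an out-neighbour
`φ g`, a point `(P0 g, P1 g)` and a vector `(m0 g, m1 g)`. -/
theorem exists_label [Finite V] {G : SimpleGraph V} (hG : G.Connected) (hc : ¬ G.IsAcyclic) :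
    ∃ (φ : V → V) (P0 P1 m0 m1 : V → ℝ), ∀ g, G.Adj g (φ g) ∧ P0 g = P0 (φ g) + m0 (φ g) ∧
      P1 g = P1 (φ g) + m1 (φ g) ∧ m0 (φ g) * m1 g ≠ m1 (φ g) * m0 g := by
  classical
  obtain ⟨a, x, h⟩ := exists_cyc hc
  have key := grow hG (fun S => ∃ (φ : V → V) (P0 P1 m0 m1 : V → ℝ), ∀ g ∈ S, φ g ∈ S ∧
      G.Adj g (φ g) ∧ P0 g = P0 (φ g) + m0 (φ g) ∧
      P1 g = P1 (φ g) + m1 (φ g) ∧ m0 (φ g) * m1 g ≠ m1 (φ g) * m0 g) (x '' {i | i < a})
      ⟨x 0, 0, by have := h.three; show 0 < a; omega, rfl⟩ ?_ ?_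
  · obtain ⟨φ, P0, P1, m0, m1, hk⟩ := key
    exact ⟨φ, P0, P1, m0, m1, fun g => (hk g trivial).2⟩
  · -- the cycle
    have h3 := h.three
    let pr : ℕ → ℕ := fun i => if i = 0 then a - 1 else i - 1
    refine ⟨fun u => x (idx a x u + 1), fun u => idx a x u, fun u => (idx a x u : ℝ) ^ 2,
      fun u => (pr (idx a x u) : ℝ) - idx a x u,
      fun u => (pr (idx a x u) : ℝ) ^ 2 - (idx a x u : ℝ) ^ 2, ?_⟩
    rintro _ ⟨i, hi, rfl⟩
    have hi' : i < a := hi
    beta_reduce
    rw [idx_x h hi']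
    have hnext : ∃ t, t < a ∧ x (i + 1) = x t ∧ pr t = i ∧ t ≠ i ∧ t ≠ pr i := by
      by_cases h1 : i + 1 < a
      · refine ⟨i + 1, h1, rfl, ?_, by omega, ?_⟩
        · simp [pr]
        · simp only [pr]
          split_ifs <;> omega
      · have e : i + 1 = a := by omega
        refine ⟨0, by omega, by rw [e, h.per], ?_, by omega, ?_⟩
        · simp only [pr, if_true]
          omega
        · simp only [pr]
          split_ifs <;> omega
    obtain ⟨t, ht, hxt, hpt, hti, htp⟩ := hnext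
    have hpi : pr i ≠ i := by
      simp only [pr]
      split_ifs <;> omega
    refine ⟨⟨t, ht, hxt.symm⟩, h.adj i hi', ?_, ?_, ?_⟩
    · rw [hxt, idx_x h ht, hpt]
      ring
    · rw [hxt, idx_x h ht, hpt]
      ring
    · rw [hxt, idx_x h ht, hpt]
      intro hcon
      have e : ((i : ℝ) - t) * ((pr i : ℝ) - i) * ((pr i : ℝ) - t) = 0 := by
        linear_combination hcon
      rcases mul_eq_zero.1 e with h1 | h1
      · rcases mul_eq_zero.1 h1 with h2 | h2
        · exact hti (by exact_mod_cast (sub_eq_zero.1 h2).symm)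
        · exact hpi (by exact_mod_cast (sub_eq_zero.1 h2))
      · exact htp (by exact_mod_cast (sub_eq_zero.1 h1).symm)
  · -- growth
    rintro S hS g hg y hy hgy ⟨φ, P0, P1, m0, m1, hk⟩
    refine ⟨Function.update φ y g, Function.update P0 y (P0 g + m0 g),
      Function.update P1 y (P1 g + m1 g), Function.update m0 y (- m1 g),
      Function.update m1 y (m0 g), ?_⟩
    have hgy' : g ≠ y := fun e => hy (e ▸ hg)
    intro u hu
    rcases hu with rfl | hu
    · simp only [Function.update_self, Function.update_of_ne hgy']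
      refine ⟨Set.mem_insert_of_mem _ hg, hgy.symm, trivial, trivial, ?_⟩
      intro hcon
      obtain ⟨_, _, _, _, h5⟩ := hk g hg
      have e : m0 g ^ 2 + m1 g ^ 2 = 0 := by linear_combination hcon
      have e0 : m0 g = 0 := by nlinarith [sq_nonneg (m0 g), sq_nonneg (m1 g)]
      have e1 : m1 g = 0 := by nlinarith [sq_nonneg (m0 g), sq_nonneg (m1 g)]
      rw [e0, e1] at h5
      simp at h5
    · have huy : u ≠ y := fun e => hy (e ▸ hu)
      obtain ⟨h1, h2, h3, h4, h5⟩ := hk u hu
      have hφ : φ u ≠ y := fun e => hy (e ▸ h1)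
      simp only [Function.update_of_ne huy, Function.update_of_ne hφ]
      exact ⟨Set.mem_insert_of_mem _ h1, h2, h3, h4, h5⟩

end Pool.Agent.T2H61.CP
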