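import Pool.Agent.T2H61.CP.Step
import Pool.Agent.T2H61.CP.Base
import Pool.Agent.TH349.Rig.Count

/-!
# The Cartesian product of three connected graphs which contain cycles is generically rigid in
three-space
-/

set_option autoImplicit false

namespace Pool.Agent.T2H61.CP

open Matrix Finset SimpleGraph Pool.Agent.H283R2.DR Pool.Agent.H789R5

theorem genRigid_iso {V W : Type} {d : ℕ} {G : SimpleGraph V} {H : SimpleGraph W} (e : G ≃g H)
    (h : GenRigid d G) : GenRigid d H := by
  obtain ⟨p, hp⟩ := h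
  refine ⟨fun w => p (e.symm w), ?_⟩
  intro q hq
  obtain ⟨A, b, hA, hb⟩ := hp (fun v => q (e v)) (by
    intro u v huv
    have := hq (e u) (e v) (e.map_adj_iff.2 huv)
    simpa using this)
  refine ⟨A, b, hA, fun w => ?_⟩
  have := hb (e.symm w)
  simpa using this

theorem top3_connected : (⊤ : SimpleGraph (Fin 3)).Connected := connected_top

theorem not_acyclic_of_card {V : Type} [Finite V] {G : SimpleGraph V} (hG : G.Connected)
    (h : Nat.card V ≤ Nat.card G.edgeSet) : ¬ G.IsAcyclic := by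
  intro hc
  have := (isTree_iff_connected_and_card.1 ⟨hG, hc⟩).2
  omega

theorem top3_cyclic : ¬ (⊤ : SimpleGraph (Fin 3)).IsAcyclic := by
  refine not_acyclic_of_card top3_connected ?_
  rw [Nat.card_eq_fintype_card, Nat.card_eq_fintype_card, ← edgeFinset_card]
  decide

/-- **The product of three connected graphs which contain cycles.** -/
theorem rigid3 {V₁ V₂ V₃ : Type} [Finite V₁] [Finite V₂] [Finite V₃] {G₁ : SimpleGraph V₁}
    {G₂ : SimpleGraph V₂} {G₃ : SimpleGraph V₃} (h1 : G₁.Connected) (h2 : G₂.Connected)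
    (h3 : G₃.Connected) (c1 : ¬ G₁.IsAcyclic) (c2 : ¬ G₂.IsAcyclic) (c3 : ¬ G₃.IsAcyclic) :
    GenRigid 3 (G₁ □ (G₂ □ G₃)) := by
  have b0 : GenRigid 3 ((⊤ : SimpleGraph (Fin 3)) □
      ((⊤ : SimpleGraph (Fin 3)) □ (⊤ : SimpleGraph (Fin 3)))) := ⟨Base.p, Base.rigid⟩
  have b1 : GenRigid 3 (G₁ □ ((⊤ : SimpleGraph (Fin 3)) □ (⊤ : SimpleGraph (Fin 3)))) :=
    step h1 c1 (s1_of_prod top3_connected top3_cyclic (s2_of_cycle top3_connected top3_cyclic)) b0
  have b2 : GenRigid 3 ((⊤ : SimpleGraph (Fin 3)) □ ((⊤ : SimpleGraph (Fin 3)) □ G₁)) :=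
    genRigid_iso (boxProdAssoc _ _ _) (genRigid_iso (boxProdComm _ _) b1)
  have b3 : GenRigid 3 (G₂ □ ((⊤ : SimpleGraph (Fin 3)) □ G₁)) :=
    step h2 c2 (s1_of_prod top3_connected top3_cyclic (s2_of_cycle h1 c1)) b2
  have b4 : GenRigid 3 ((⊤ : SimpleGraph (Fin 3)) □ (G₁ □ G₂)) :=
    genRigid_iso (boxProdAssoc _ _ _) (genRigid_iso (boxProdComm _ _) b3)
  have b5 : GenRigid 3 (G₃ □ (G₁ □ G₂)) :=
    step h3 c3 (s1_of_prod h1 c1 (s2_of_cycle h2 c2)) b4
  exact genRigid_iso (boxProdAssoc _ _ _) (genRigid_iso (boxProdComm _ _) b5)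

/-! ### Ranks -/

section rank

variable {V U : Type} [Fintype V] [Fintype U]

theorem finrank_inf {E : Type} [AddCommGroup E] [Module ℝ E] [FiniteDimensional ℝ E]
    (M N : Submodule ℝ E) :
    Module.finrank ℝ M + Module.finrank ℝ N ≤
      Module.finrank ℝ (M ⊓ N : Submodule ℝ E) + Module.finrank ℝ E := by
  have h1 := Submodule.finrank_sup_add_finrank_inf_eq M N
  have h2 := Submodule.finrank_le (M ⊔ N)
  omega

theorem finrank_comap {E F : Type} [AddCommGroup E] [Module ℝ E] [FiniteDimensional ℝ E]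
    [AddCommGroup F] [Module ℝ F] [FiniteDimensional ℝ F] (R : E →ₗ[ℝ] F) (N : Submodule ℝ F) :
    Module.finrank ℝ E + Module.finrank ℝ N ≤
      Module.finrank ℝ (N.comap R) + Module.finrank ℝ F := by
  have h1 := LinearMap.finrank_range_add_finrank_ker (N.mkQ.comp R)
  have h2 : LinearMap.ker (N.mkQ.comp R) = N.comap R := by
    rw [LinearMap.ker_comp, Submodule.ker_mkQ]
  rw [h2] at h1
  have h3 := Submodule.finrank_le (LinearMap.range (N.mkQ.comp R))
  have h4 := Submodule.finrank_quotient_add_finrank N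
  omega

/-- the motions of a copy of `Z` -/
theorem mo_copy (Z : SimpleGraph U) (f : U ↪ V) (p : V → Fin 3 → ℝ) :
    3 * Fintype.card V ≤ mo (Z.map f) p + genRank 3 Z := by
  obtain ⟨pU, hpU⟩ := exists_mg U 3
  have h1 := genRank_add hpU Z
  have h2 := hpU.min Z (fun u => p (f u))
  let R : (V → Fin 3 → ℝ) →ₗ[ℝ] (U → Fin 3 → ℝ) := LinearMap.funLeft ℝ (Fin 3 → ℝ) f
  have h3 := finrank_comap R (Mot Z (fun u => p (f u)))
  rw [finrank_all, finrank_all] at h3
  have h4 : (Mot Z (fun u => p (f u))).comap R ≤ Mot (Z.map f) p := by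
    intro q hq
    rw [Submodule.mem_comap, mem_mot] at hq
    rw [mem_mot]
    intro a b hab
    rw [SimpleGraph.map_adj] at hab
    obtain ⟨u, v, huv, rfl, rfl⟩ := hab
    exact hq u v huv
  have h5 : Module.finrank ℝ ((Mot Z (fun u => p (f u))).comap R) ≤ mo (Z.map f) p :=
    Submodule.finrank_mono h4
  unfold mo at *
  omega

theorem mo_copies (Z : SimpleGraph U) {m : ℕ} (f : Fin m → (U ↪ V)) (p : V → Fin 3 → ℝ) :
    3 * Fintype.card V ≤ mo (⨆ i, Z.map (f i)) p + m * genRank 3 Z := by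
  classical
  have key : ∀ s : Finset (Fin m),
      3 * Fintype.card V ≤ Module.finrank ℝ (⨅ i ∈ s, Mot (Z.map (f i)) p :
        Submodule ℝ (V → Fin 3 → ℝ)) + s.card * genRank 3 Z := by
    intro s
    induction s using Finset.induction_on with
    | empty =>
      have e : (⨅ i ∈ (∅ : Finset (Fin m)), Mot (Z.map (f i)) p :
          Submodule ℝ (V → Fin 3 → ℝ)) = ⊤ := by simp
      rw [e, finrank_top, finrank_all, card_empty, zero_mul, add_zero]
    | insert a s ha ih =>
      have h1 := mo_copy Z (f a) p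
      have h2 := finrank_inf (Mot (Z.map (f a)) p) (⨅ i ∈ s, Mot (Z.map (f i)) p)
      rw [finrank_all] at h2
      rw [Finset.iInf_insert, card_insert_of_notMem ha, add_mul]
      unfold mo at h1
      omega
  have h1 := key Finset.univ
  rw [card_univ, Fintype.card_fin] at h1
  have h2 : (⨅ i ∈ (Finset.univ : Finset (Fin m)), Mot (Z.map (f i)) p :
      Submodule ℝ (V → Fin 3 → ℝ)) ≤ Mot (⨆ i, Z.map (f i)) p := by
    intro q hq
    simp only [mem_univ, iInf_pos, Submodule.mem_iInf] at hq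
    rw [mem_mot]
    intro a b hab
    rw [iSup_adj] at hab
    obtain ⟨i, hi⟩ := hab
    exact (mem_mot _ p q).1 (hq i) a b hi
  have h3 := Submodule.finrank_mono h2
  unfold mo
  omega

/-- If `Y` has at most `3 n` edges, is rigid and contains seven disjoint copies of `Z`, then the
edges of `Z` are independent. -/
theorem indep_of_copies (Y : SimpleGraph V) (Z : SimpleGraph U) (f : Fin 7 → (U ↪ V))
    (hf : ∀ i j u v, f i u = f j v → i = j) (hZ : ∀ i, Z.map (f i) ≤ Y) (hY : GenRigid 3 Y)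
    (hE : Y.edgeSet.ncard ≤ 3 * Fintype.card V) (h3 : 3 ≤ Fintype.card V) :
    genRank 3 Z = Z.edgeSet.ncard := by
  classical
  obtain ⟨pU, hpU⟩ := exists_mg U 3
  have h0 := genRank_add hpU Z
  have h0' := Pool.Agent.TH349.Rig.rank_le_edges Z pU
  have hle : genRank 3 Z ≤ Z.edgeSet.ncard := by omega
  obtain ⟨p, hp⟩ := exists_mg V 3
  have h1 := (genRigid_iff hp h3 Y).1 hY
  have h2 := mo_copies Z f p
  have h4 := mo_le_add (G := ⨆ i, Z.map (f i)) (G' := Y) p
  have hG : (⨆ i, Z.map (f i)) ≤ Y := iSup_le hZ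
  have h5 : 7 * Z.edgeSet.ncard ≤ (⨆ i, Z.map (f i)).edgeSet.ncard := by
    have e : Fintype.card (Fin 7 × Z.edgeSet) = 7 * Z.edgeSet.ncard := by
      rw [Fintype.card_prod, Fintype.card_fin, ← Nat.card_eq_fintype_card, Set.ncard_def,
        Set.encard, ENat.card_eq_coe_natCard]
      rfl
    rw [← e, ← Nat.card_eq_fintype_card, ← Nat.card_coe_set_eq]
    refine Nat.card_le_card_of_injective (fun x : Fin 7 × Z.edgeSet =>
      (⟨Sym2.map (f x.1) x.2.1, ?_⟩ : (⨆ i, Z.map (f i)).edgeSet)) ?_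
    · obtain ⟨i, ⟨e, he⟩⟩ := x
      induction e using Sym2.ind with
      | _ a b =>
        show (⨆ i, Z.map (f i)).Adj (f i a) (f i b)
        rw [iSup_adj]
        exact ⟨i, (map_adj_apply).2 he⟩
    · rintro ⟨i, ⟨e, he⟩⟩ ⟨j, ⟨e', he'⟩⟩ h
      have h' := congrArg Subtype.val h
      simp only at h'
      have hij : i = j := by
        induction e using Sym2.ind with
        | _ a b =>
          induction e' using Sym2.ind with
          | _ c d =>
            rw [Sym2.map_mk, Sym2.map_mk, Sym2.eq_iff] at h'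
            rcases h' with ⟨h', _⟩ | ⟨h', _⟩
            · exact hf _ _ _ _ h'
            · exact hf _ _ _ _ h'
      subst hij
      have := Sym2.map.injective (f i).injective h'
      subst this
      rfl
  have h6 : (Y.edgeSet \ (⨆ i, Z.map (f i)).edgeSet).ncard +
      (⨆ i, Z.map (f i)).edgeSet.ncard = Y.edgeSet.ncard :=
    Set.ncard_sdiff_add_ncard_of_subset (edgeSet_mono hG) (Set.toFinite _)
  omega

end rank

end Pool.Agent.T2H61.CP
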