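import Pool.Agent.T2H61.CP.Label
import Pool.Agent.H283R2.DR.GenExists

/-!
# Frameworks in three-space whose vertices have one or two prescribed normals
-/

set_option autoImplicit false

namespace Pool.Agent.T2H61.CP

open Matrix Finset Pool.Agent.H283R2.DR

variable {V W : Type}

/-- the products with the normals -/
def dm (n : W → Fin 3 → ℝ) : (W → Fin 3 → ℝ) →ₗ[ℝ] (W → ℝ) where
  toFun u v := n v ⬝ᵥ u v
  map_add' u u' := by
    funext v
    simp only [Pi.add_apply, dotProduct_add]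
  map_smul' c u := by
    funext v
    simp only [Pi.smul_apply, dotProduct_smul, RingHom.id_apply]

theorem dm_apply (n u : W → Fin 3 → ℝ) (v : W) : dm n u v = n v ⬝ᵥ u v := rfl

/-- one normal at each vertex -/
noncomputable def L1 (X : SimpleGraph W) (w n : W → Fin 3 → ℝ) :
    (W → Fin 3 → ℝ) →ₗ[ℝ] ((W × W → ℝ) × (W → ℝ)) := (TA.rig X w).prod (dm n)

/-- two normals at each vertex -/
noncomputable def L2 (X : SimpleGraph W) (w n n' : W → Fin 3 → ℝ) :
    (W → Fin 3 → ℝ) →ₗ[ℝ] ((W × W → ℝ) × ((W → ℝ) × (W → ℝ))) :=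
  (TA.rig X w).prod ((dm n).prod (dm n'))

/-- the direction of a change of the placement -/
noncomputable def D2 (X : SimpleGraph W) (w : W → Fin 3 → ℝ) :
    (W → Fin 3 → ℝ) →ₗ[ℝ] ((W × W → ℝ) × ((W → ℝ) × (W → ℝ))) := (TA.rig X w).prod 0

theorem L2_line (X : SimpleGraph W) (w w' n n' : W → Fin 3 → ℝ) (s : ℝ) :
    L2 X (w + s • w') n n' = L2 X w n n' + s • D2 X w' := by
  unfold L2 D2
  rw [TA.rig_line]
  refine LinearMap.ext fun u => ?_
  simp [LinearMap.prod_apply]

theorem L1_inj (X : SimpleGraph W) (w n : W → Fin 3 → ℝ) : Function.Injective (L1 X w n) ↔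
    ∀ u : W → Fin 3 → ℝ, IsMotion X w u → (∀ v, n v ⬝ᵥ u v = 0) → u = 0 := by
  rw [injective_iff_map_eq_zero]
  refine forall_congr' fun u => ?_
  rw [← TA.mem_ker_rig, LinearMap.mem_ker]
  constructor
  · intro h h1 h2
    exact h (Prod.ext h1 (funext h2))
  · intro h h1
    exact h (congrArg Prod.fst h1) (fun v => congrFun (congrArg Prod.snd h1) v)

theorem L2_inj (X : SimpleGraph W) (w n n' : W → Fin 3 → ℝ) : Function.Injective (L2 X w n n') ↔
    ∀ u : W → Fin 3 → ℝ, IsMotion X w u → (∀ v, n v ⬝ᵥ u v = 0) → (∀ v, n' v ⬝ᵥ u v = 0) →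
      u = 0 := by
  rw [injective_iff_map_eq_zero]
  refine forall_congr' fun u => ?_
  rw [← TA.mem_ker_rig, LinearMap.mem_ker]
  constructor
  · intro h h1 h2 h3
    exact h (Prod.ext h1 (Prod.ext (funext h2) (funext h3)))
  · intro h h1
    exact h (congrArg Prod.fst h1) (fun v => congrFun (congrArg (fun z => z.2.1) h1) v)
      (fun v => congrFun (congrArg (fun z => z.2.2) h1) v)

def S1 (X : SimpleGraph W) : Prop := ∃ w n : W → Fin 3 → ℝ, Function.Injective (L1 X w n)

def S2 (X : SimpleGraph W) : Prop := ∃ w n n' : W → Fin 3 → ℝ, Function.Injective (L2 X w n n')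

theorem two_by_two {a b c d x y : ℝ} (h : a * d ≠ b * c) (h1 : a * x + b * y = 0)
    (h2 : c * x + d * y = 0) : x = 0 ∧ y = 0 := by
  have h3 : a * d - b * c ≠ 0 := sub_ne_zero.2 h
  constructor
  · have : (a * d - b * c) * x = 0 := by linear_combination d * h1 - b * h2
    exact (mul_eq_zero.1 this).resolve_left h3
  · have : (a * d - b * c) * y = 0 := by linear_combination a * h2 - c * h1
    exact (mul_eq_zero.1 this).resolve_left h3

theorem s2_of_cycle [Finite W] {H : SimpleGraph W} (hH : H.Connected) (hc : ¬ H.IsAcyclic) :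
    S2 H := by
  obtain ⟨φ, P0, P1, m0, m1, h⟩ := exists_label hH hc
  refine ⟨fun v => ![P0 v, P1 v, 0], fun v => ![m0 v, m1 v, 0], fun _ => ![0, 0, 1], ?_⟩
  rw [L2_inj]
  intro u hu h1 h2
  funext v
  obtain ⟨ha, hb, hb', hd⟩ := h v
  have e2 := h2 v
  have e1 := h1 v
  have e1' := h1 (φ v)
  have e3 := hu v (φ v) ha
  simp only [dotProduct, Fin.sum_univ_three, Pi.sub_apply, Matrix.cons_val_zero,
    Matrix.cons_val_one, Matrix.cons_val] at e1 e1' e2 e3
  have e4 : m0 (φ v) * u v 0 + m1 (φ v) * u v 1 = 0 := by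
    have f1 : P0 v - P0 (φ v) = m0 (φ v) := by rw [hb]; ring
    have f2 : P1 v - P1 (φ v) = m1 (φ v) := by rw [hb']; ring
    rw [f1, f2] at e3
    linear_combination e3 + e1'
  have e5 : m0 v * u v 0 + m1 v * u v 1 = 0 := by linear_combination e1
  obtain ⟨g0, g1⟩ := two_by_two hd e4 e5
  have g2 : u v 2 = 0 := by linear_combination e2
  funext k
  fin_cases k
  · exact g0
  · exact g1
  · exact g2

theorem s1_of_prod [Finite V] [Finite W] {G : SimpleGraph V} {H : SimpleGraph W}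
    (hG : G.Connected) (hc : ¬ G.IsAcyclic) (hH : S2 H) : S1 (G □ H) := by
  obtain ⟨φ, P0, P1, m0, m1, h⟩ := exists_label hG hc
  obtain ⟨w, n, n', hinj⟩ := hH
  have hfin : ∀ g : V, {s : ℝ | ¬ Function.Injective
      (L2 H w n n' + s • D2 H (P0 g • n + P1 g • n'))}.Finite :=
    fun g => TA.inj_good _ _ hinj
  have hU : ((⋃ g : V, {s : ℝ | ¬ Function.Injective
      (L2 H w n n' + s • D2 H (P0 g • n + P1 g • n'))}) ∪ {0}).Finite :=
    (Set.finite_iUnion hfin).union (Set.finite_singleton 0)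
  obtain ⟨ε, hε⟩ := hU.infinite_compl.nonempty
  rw [Set.mem_compl_iff, Set.mem_union, not_or, Set.mem_singleton_iff, Set.mem_iUnion,
    not_exists] at hε
  obtain ⟨hε1, hε0⟩ := hε
  have hinj' : ∀ g : V, Function.Injective (L2 H (w + ε • (P0 g • n + P1 g • n')) n n') := by
    intro g
    have h1 := hε1 g
    rw [Set.mem_ofPred_eq, not_not] at h1
    rwa [← L2_line] at h1
  refine ⟨fun x => w x.2 + ε • (P0 x.1 • n x.2 + P1 x.1 • n' x.2),
    fun x => m0 x.1 • n x.2 + m1 x.1 • n' x.2, ?_⟩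
  rw [L1_inj]
  intro u hu hn
  have key : ∀ g v, n v ⬝ᵥ u (g, v) = 0 ∧ n' v ⬝ᵥ u (g, v) = 0 := by
    intro g v
    obtain ⟨ha, hb, hb', hd⟩ := h g
    have e1 := hn (g, v)
    have e2 := hn (φ g, v)
    have e3 := hu (g, v) (φ g, v) (by simp [ha])
    have e4 : (w v + ε • (P0 g • n v + P1 g • n' v)) -
        (w v + ε • (P0 (φ g) • n v + P1 (φ g) • n' v)) =
        ε • (m0 (φ g) • n v + m1 (φ g) • n' v) := by
      have f1 : m0 (φ g) = P0 g - P0 (φ g) := by rw [hb]; ring
      have f2 : m1 (φ g) = P1 g - P1 (φ g) := by rw [hb']; ring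
      rw [f1, f2]
      module
    simp only [e4, smul_dotProduct, dotProduct_sub, add_dotProduct, smul_eq_mul] at e1 e2 e3
    rw [← mul_sub] at e3
    have e5 := (mul_eq_zero.1 e3).resolve_left hε0
    refine two_by_two hd (x := n v ⬝ᵥ u (g, v)) (y := n' v ⬝ᵥ u (g, v)) ?_ e1
    linear_combination e5 + e2
  funext x
  obtain ⟨g, v⟩ := x
  have h1 := (L2_inj H _ n n').1 (hinj' g) (fun v => u (g, v)) ?_ (fun v => (key g v).1)
    (fun v => (key g v).2)
  · exact congrFun h1 v
  · intro v v' hvv'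
    exact hu (g, v) (g, v') (by simp [hvv'])

end Pool.Agent.T2H61.CP
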