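import Pool.Agent.T2H61.CP.Sl

/-!
# Products with a connected graph which contains a cycle: reduction to the product with a triangle
-/

set_option autoImplicit false

namespace Pool.Agent.T2H61.CP

open Matrix Finset Pool.Agent.H283R2.DR

variable {V W : Type}

theorem dm_line (n n' : W → Fin 3 → ℝ) (s : ℝ) : dm (n + s • n') = dm n + s • dm n' := by
  refine LinearMap.ext fun u => funext fun v => ?_
  simp only [dm_apply, LinearMap.add_apply, LinearMap.smul_apply, Pi.add_apply, Pi.smul_apply,
    add_dotProduct, smul_dotProduct]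

theorem L1_line (X : SimpleGraph W) (w w' n n' : W → Fin 3 → ℝ) (s : ℝ) :
    L1 X (w + s • w') (n + s • n') = L1 X w n + s • L1 X w' n' := by
  unfold L1
  rw [TA.rig_line, dm_line]
  refine LinearMap.ext fun u => ?_
  simp [LinearMap.prod_apply]

theorem good_L1 [Finite W] {E : Type} [AddCommGroup E] [Module ℝ E] (X : SimpleGraph W)
    (A B : E → W → Fin 3 → ℝ) (hA : ∀ p d (s : ℝ), A (p + s • d) = A p + s • A d)
    (hB : ∀ p d (s : ℝ), B (p + s • d) = B p + s • B d) :
    TA.Good (fun p => Function.Injective (L1 X (A p) (B p))) := by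
  intro p0 p1 h0
  refine (TA.inj_good _ (L1 X (A (p1 - p0)) (B (p1 - p0))) h0).subset ?_
  intro s hs
  rw [Set.mem_ofPred_eq] at hs ⊢
  beta_reduce at hs
  rwa [hA, hB, L1_line] at hs

theorem good_rigidOn [Finite V] (G : SimpleGraph V) (U : Set V) :
    TA.Good (fun p : V → Fin 3 → ℝ => RigidOn G U p) := by
  intro p0 p1 h0
  rw [rigidOn_iff_induce] at h0
  refine (TA.infRigid_good (G.induce U) (fun x : U => p0 x) (fun x : U => p1 x) h0).subset ?_
  intro s hs
  rw [Set.mem_ofPred_eq] at hs ⊢
  beta_reduce at hs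
  rw [rigidOn_iff_induce] at hs
  exact hs

/-- a further layer which is joined to a layer of a rigid part -/
theorem grow_step [Finite V] [Finite W] {G : SimpleGraph V} {X : SimpleGraph W} (hX : S1 X)
    {S : Set V} {g y : V} (hg : g ∈ S) (hy : y ∉ S) (hgy : G.Adj g y)
    (hP : ∃ p : V × W → Fin 3 → ℝ, RigidOn (G □ X) {z | z.1 ∈ S} p) :
    ∃ p : V × W → Fin 3 → ℝ, RigidOn (G □ X) {z | z.1 ∈ insert y S} p := by
  classical
  have hyg : y ≠ g := fun h => hy (h ▸ hg)
  obtain ⟨w, n, hw⟩ := hX
  obtain ⟨p, hp⟩ := TA.good_family (E := V × W → Fin 3 → ℝ) (ι := Bool)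
    (fun i p => match i with
      | true => RigidOn (G □ X) {z | z.1 ∈ S} p
      | false => Function.Injective (L1 X (fun v => p (y, v)) (fun v => p (y, v) - p (g, v))))
    (by
      rintro (_ | _)
      · refine good_L1 X (fun (p : V × W → Fin 3 → ℝ) v => p (y, v))
          (fun p v => p (y, v) - p (g, v)) (fun p d s => rfl) (fun p d s => ?_)
        funext v
        simp only [Pi.add_apply, Pi.smul_apply]
        module
      · exact good_rigidOn _ _)
    (by
      rintro (_ | _)
      · refine ⟨fun z => if z.1 = y then w z.2 else w z.2 - n z.2, ?_⟩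
        have e1 : (fun v => (fun z : V × W => if z.1 = y then w z.2 else w z.2 - n z.2) (y, v)) =
            w := by
          funext v
          simp
        have e2 : (fun v => (fun z : V × W => if z.1 = y then w z.2 else w z.2 - n z.2) (y, v) -
            (fun z : V × W => if z.1 = y then w z.2 else w z.2 - n z.2) (g, v)) = n := by
          funext v
          simp [hyg.symm]
        show Function.Injective (L1 X _ _)
        rw [e2, e1]
        exact hw
      · exact hP)
  have h1 : RigidOn (G □ X) {z | z.1 ∈ S} p := hp true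
  have h2 : Function.Injective (L1 X (fun v => p (y, v)) (fun v => p (y, v) - p (g, v))) :=
    hp false
  rw [L1_inj] at h2
  refine ⟨p, ?_⟩
  intro q hq
  obtain ⟨A, b, hA, hb⟩ := h1 q (fun u hu v hv huv =>
    hq u (Set.mem_insert_of_mem _ hu) v (Set.mem_insert_of_mem _ hv) huv)
  refine ⟨A, b, hA, ?_⟩
  have hyS : ∀ v, (y, v) ∈ {z : V × W | z.1 ∈ insert y S} := fun v => Set.mem_insert _ _
  have key := h2 (fun v => q (y, v) - (A *ᵥ p (y, v) + b)) ?_ ?_
  · rintro ⟨z, v⟩ hz
    rcases hz with hz | hz
    · have hz' : z = y := hz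
      subst hz'
      exact sub_eq_zero.1 (congrFun key v)
    · exact hb (z, v) hz
  · intro v v' hvv'
    have e := hq (y, v) (hyS v) (y, v') (hyS v') (by simp [hvv'])
    have e1 : (q (y, v) - (A *ᵥ p (y, v) + b)) - (q (y, v') - (A *ᵥ p (y, v') + b)) =
        (q (y, v) - q (y, v')) - A *ᵥ (p (y, v) - p (y, v')) := by
      rw [mulVec_sub]
      abel
    rw [e1, dotProduct_sub, e, TA.skew_dot hA, sub_zero]
  · intro v
    have e := hq (y, v) (hyS v) (g, v) (Set.mem_insert_of_mem _ hg) (by simp [hgy.symm])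
    rw [hb (g, v) hg] at e
    have e1 : q (y, v) - (A *ᵥ p (g, v) + b) = (q (y, v) - (A *ᵥ p (y, v) + b)) +
        A *ᵥ (p (y, v) - p (g, v)) := by
      rw [mulVec_sub]
      abel
    rw [e1, dotProduct_add, TA.skew_dot hA, add_zero] at e
    exact e

/-- the product with a cycle -/
theorem cyc_stage [Finite V] [Finite W] {G : SimpleGraph V} {X : SimpleGraph W} (hX : S1 X)
    (hK : GenRigid 3 ((⊤ : SimpleGraph (Fin 3)) □ X)) {a : ℕ} {x : ℕ → V} (h : Cyc G a x) :
    ∃ p : V × W → Fin 3 → ℝ, RigidOn (G □ X) {z | z.1 ∈ x '' {i | i < a}} p := by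
  classical
  have h3 := h.three
  obtain ⟨w, n, hw⟩ := hX
  set τ : ℕ → ℝ := fun i => ((i : ℝ) - 2) / ((a : ℝ) - 2) with hτ
  have ha2 : (0 : ℝ) < (a : ℝ) - 2 := by
    have : (3 : ℝ) ≤ a := by exact_mod_cast h3
    linarith
  obtain ⟨pb, hpb⟩ := TA.good_family (E := Fin 3 × W → Fin 3 → ℝ) (ι := Option (Fin a))
    (fun i p => match i with
      | none => InfRigid ((⊤ : SimpleGraph (Fin 3)) □ X) p
      | some j => Function.Injective (L1 X (fun v => p (2, v) + τ j • (p (0, v) - p (2, v)))
          (fun v => p (0, v) - p (2, v))))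
    (by
      rintro (_ | j)
      · exact TA.infRigid_good _
      · refine good_L1 X (fun (p : Fin 3 × W → Fin 3 → ℝ) v =>
          p (2, v) + τ j • (p (0, v) - p (2, v)))
          (fun p v => p (0, v) - p (2, v)) (fun p d s => ?_) (fun p d s => ?_)
        · funext v
          simp only [Pi.add_apply, Pi.smul_apply]
          module
        · funext v
          simp only [Pi.add_apply, Pi.smul_apply]
          module)
    (by
      rintro (_ | j)
      · exact hK
      · refine ⟨fun z => if z.1 = 0 then w z.2 + (1 - τ j) • n z.2 else w z.2 - τ j • n z.2, ?_⟩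
        have e2 : (fun v => (fun z : Fin 3 × W => if z.1 = 0 then w z.2 + (1 - τ j) • n z.2 else
            w z.2 - τ j • n z.2) (0, v) - (fun z : Fin 3 × W => if z.1 = 0 then
            w z.2 + (1 - τ j) • n z.2 else w z.2 - τ j • n z.2) (2, v)) = n := by
          funext v
          have : ¬ ((2 : Fin 3) = 0) := by decide
          simp only [if_true, this, if_false]
          module
        have e1 : (fun v => (fun z : Fin 3 × W => if z.1 = 0 then w z.2 + (1 - τ j) • n z.2 else
            w z.2 - τ j • n z.2) (2, v) + τ j • ((fun z : Fin 3 × W => if z.1 = 0 then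
            w z.2 + (1 - τ j) • n z.2 else w z.2 - τ j • n z.2) (0, v) -
            (fun z : Fin 3 × W => if z.1 = 0 then
            w z.2 + (1 - τ j) • n z.2 else w z.2 - τ j • n z.2) (2, v))) = w := by
          funext v
          have : ¬ ((2 : Fin 3) = 0) := by decide
          simp only [if_true, this, if_false]
          module
        show Function.Injective (L1 X _ _)
        rw [e1, e2]
        exact hw)
  have hR : InfRigid ((⊤ : SimpleGraph (Fin 3)) □ X) pb := hpb none
  have hI : ∀ j : ℕ, j < a → Function.Injective (L1 X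
      (fun v => pb (2, v) + τ j • (pb (0, v) - pb (2, v))) (fun v => pb (0, v) - pb (2, v))) :=
    fun j hj => hpb (some ⟨j, hj⟩)
  -- the positions of the layers
  set Q : ℕ → W → Fin 3 → ℝ := fun i v => if i = 0 then pb (0, v) else if i = 1 then pb (1, v) else
    pb (2, v) + τ i • (pb (0, v) - pb (2, v)) with hQ
  have hQ0 : ∀ v, Q 0 v = pb (0, v) := fun v => by simp [hQ]
  have hQ1 : ∀ v, Q 1 v = pb (1, v) := fun v => by simp [hQ]
  have hQi : ∀ i v, 2 ≤ i → Q i v = pb (2, v) + τ i • (pb (0, v) - pb (2, v)) := by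
    intro i v hi
    have e0 : ¬ i = 0 := by omega
    have e1 : ¬ i = 1 := by omega
    simp only [hQ, e0, e1, if_false]
  have hτ2 : τ 2 = 0 := by simp [hτ]
  have hτa : τ a = 1 := by
    simp only [hτ]
    exact div_self ha2.ne'
  have hQ2 : ∀ v, Q 2 v = pb (2, v) := by
    intro v
    rw [hQi 2 v le_rfl, hτ2]
    simp
  have hQa : ∀ v, Q a v = pb (0, v) := by
    intro v
    rw [hQi a v (by omega), hτa]
    simp
  refine ⟨fun z => Q (idx a x z.1) z.2, ?_⟩
  set p : V × W → Fin 3 → ℝ := fun z => Q (idx a x z.1) z.2 with hp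
  have hpx : ∀ i v, i ≤ a → p (x i, v) = Q i v := by
    intro i v hi
    rcases Nat.lt_or_ge i a with h1 | h1
    · simp only [hp]
      rw [idx_x h h1]
    · have e : i = a := le_antisymm hi h1
      subst e
      simp only [hp]
      rw [h.per, idx_x h (by omega), hQ0, hQa]
  intro q hq
  have hS : ∀ i v, i ≤ a → (x i, v) ∈ {z : V × W | z.1 ∈ x '' {i | i < a}} := by
    intro i v hi
    rcases Nat.lt_or_ge i a with h1 | h1
    · exact ⟨i, h1, rfl⟩
    · have e : i = a := le_antisymm hi h1
      subst e
      exact ⟨0, by show 0 < i; omega, h.per.symm⟩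
  set d : W → Fin 3 → ℝ := fun v => pb (0, v) - pb (2, v) with hd
  set r : ℕ → W → Fin 3 → ℝ := fun i v => q (x i, v) with hr
  -- constraints
  have hG : ∀ i v, i < a → (Q i v - Q (i + 1) v) ⬝ᵥ (r i v - r (i + 1) v) = 0 := by
    intro i v hi
    have := hq (x i, v) (hS i v hi.le) (x (i + 1), v) (hS (i + 1) v hi) (by simp [h.adj i hi])
    rwa [hpx i v hi.le, hpx (i + 1) v hi] at this
  have hW : ∀ i v v', i ≤ a → X.Adj v v' → (Q i v - Q i v') ⬝ᵥ (r i v - r i v') = 0 := by
    intro i v v' hi hvv'
    have := hq (x i, v) (hS i v hi) (x i, v') (hS i v' hi) (by simp [hvv'])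
    rwa [hpx i v hi, hpx i v' hi] at this
  have hstep : ∀ i v, 2 ≤ i → i < a → d v ⬝ᵥ (r (i + 1) v - r i v) = 0 := by
    intro i v hi hia
    have h1 := hG i v hia
    rw [hQi i v hi, hQi (i + 1) v (by omega)] at h1
    have e : pb (2, v) + τ i • (pb (0, v) - pb (2, v)) -
        (pb (2, v) + τ (i + 1) • (pb (0, v) - pb (2, v))) = (τ i - τ (i + 1)) • d v := by
      simp only [hd]
      module
    rw [e, smul_dotProduct, smul_eq_mul] at h1
    have hne : τ i - τ (i + 1) ≠ 0 := by
      simp only [hτ]
      rw [← sub_div]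
      refine div_ne_zero ?_ ha2.ne'
      push_cast
      intro h
      linarith
    have h2 := (mul_eq_zero.1 h1).resolve_left hne
    have e3 : r (i + 1) v - r i v = - (r i v - r (i + 1) v) := by abel
    rw [e3, dotProduct_neg, h2, neg_zero]
  have hchain : ∀ i v, 2 ≤ i → i ≤ a → d v ⬝ᵥ (r i v - r 2 v) = 0 := by
    intro i v hi
    induction i, hi using Nat.le_induction with
    | base => intro _; simp
    | succ i hi ih =>
      intro hia
      have h1 := ih (by omega)
      have h2 := hstep i v hi (by omega)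
      have e : r (i + 1) v - r 2 v = (r (i + 1) v - r i v) + (r i v - r 2 v) := by abel
      rw [e, dotProduct_add, h1, h2, add_zero]
  have hra : ∀ v, r a v = r 0 v := by
    intro v
    simp only [hr, h.per]
  -- the rigid part
  obtain ⟨A, b, hA, hb⟩ := hR (fun z => r z.1 z.2) (by
    have hlay : ∀ (j : Fin 3) (v : W), pb (j, v) = Q j v := by
      intro j v
      fin_cases j
      · exact (hQ0 v).symm
      · exact (hQ1 v).symm
      · exact (hQ2 v).symm
    have hcross : ∀ (j k : Fin 3) (v : W), j < k →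
        (pb (j, v) - pb (k, v)) ⬝ᵥ (r j v - r k v) = 0 := by
      intro j k v hjk
      have h02 : (pb (0, v) - pb (2, v)) ⬝ᵥ (r 0 v - r 2 v) = 0 := by
        have := hchain a v (by omega) le_rfl
        rwa [hra] at this
      have h01 : (pb (0, v) - pb (1, v)) ⬝ᵥ (r 0 v - r 1 v) = 0 := by
        have := hG 0 v (by omega)
        rwa [hQ0, hQ1] at this
      have h12 : (pb (1, v) - pb (2, v)) ⬝ᵥ (r 1 v - r 2 v) = 0 := by
        have := hG 1 v (by omega)
        rwa [hQ2, hQ1] at this
      fin_cases j <;> fin_cases k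
      · exact absurd hjk (by decide)
      · exact h01
      · exact h02
      · exact absurd hjk (by decide)
      · exact absurd hjk (by decide)
      · exact h12
      · exact absurd hjk (by decide)
      · exact absurd hjk (by decide)
      · exact absurd hjk (by decide)
    rintro ⟨j, v⟩ ⟨k, v'⟩ hjk
    rw [SimpleGraph.boxProd_adj] at hjk
    rcases hjk with ⟨hjk, hv⟩ | ⟨hv, hjk⟩
    · simp only at hv hjk
      subst hv
      rcases lt_or_gt_of_ne (SimpleGraph.top_adj _ _ |>.1 hjk) with hlt | hlt
      · exact hcross j k v hlt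
      · have h1 := hcross k j v hlt
        show (pb (j, v) - pb (k, v)) ⬝ᵥ (r j v - r k v) = 0
        rw [← neg_sub (pb (k, v)), ← neg_sub (r k v), neg_dotProduct_neg]
        exact h1
    · simp only at hv hjk
      subst hjk
      show (pb (j, v) - pb (j, v')) ⬝ᵥ (r j v - r j v') = 0
      rw [hlay, hlay]
      exact hW j v v' (by omega) hv)
  have hb2 : ∀ v, r 2 v = A *ᵥ pb (2, v) + b := fun v => hb (2, v)
  refine ⟨A, b, hA, ?_⟩
  have key : ∀ i v, i < a → r i v = A *ᵥ Q i v + b := by
    intro i v hi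
    rcases Nat.lt_or_ge i 2 with h1 | h1
    · have h2 : i = 0 ∨ i = 1 := by omega
      rcases h2 with rfl | rfl
      · rw [hQ0]
        exact hb (0, v)
      · rw [hQ1]
        exact hb (1, v)
    · have hinj := (L1_inj X _ _).1 (hI i hi) (fun v => r i v - (A *ᵥ Q i v + b)) ?_ ?_
      · exact sub_eq_zero.1 (congrFun hinj v)
      · intro v v' hvv'
        have e := hW i v v' hi.le hvv'
        rw [hQi i v h1, hQi i v' h1] at e
        have e1 : (r i v - (A *ᵥ Q i v + b)) - (r i v' - (A *ᵥ Q i v' + b)) =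
            (r i v - r i v') - A *ᵥ (Q i v - Q i v') := by
          rw [mulVec_sub]
          abel
        rw [e1, dotProduct_sub, e, hQi i v h1, hQi i v' h1, TA.skew_dot hA, sub_zero]
      · intro v
        show d v ⬝ᵥ (r i v - (A *ᵥ Q i v + b)) = 0
        have e1 : r i v - (A *ᵥ Q i v + b) = (r i v - r 2 v) - τ i • (A *ᵥ d v) := by
          rw [hb2, hQi i v h1, mulVec_add, mulVec_smul]
          simp only [hd]
          abel
        rw [e1, dotProduct_sub, hchain i v h1 hi.le, dotProduct_smul, TA.skew_dot hA]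
        simp
  rintro ⟨g, v⟩ ⟨i, hi, hgi⟩
  simp only at hgi
  subst hgi
  have hi' : i < a := hi
  rw [hpx i v hi'.le]
  exact key i v hi'

/-- If the product of `X` with a triangle is rigid then so is the product with every connected graph
which contains a cycle. -/
theorem step [Finite V] [Finite W] {G : SimpleGraph V} {X : SimpleGraph W} (hG : G.Connected)
    (hc : ¬ G.IsAcyclic) (hX : S1 X) (hK : GenRigid 3 ((⊤ : SimpleGraph (Fin 3)) □ X)) :
    GenRigid 3 (G □ X) := by
  obtain ⟨a, x, h⟩ := exists_cyc hc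
  have key := grow hG (fun S => ∃ p : V × W → Fin 3 → ℝ, RigidOn (G □ X) {z | z.1 ∈ S} p)
    (x '' {i | i < a}) ⟨x 0, 0, by have := h.three; show 0 < a; omega, rfl⟩
    (cyc_stage hX hK h) (fun S _ g hg y hy hgy hP => grow_step hX hg hy hgy hP)
  obtain ⟨p, hp⟩ := key
  refine ⟨p, ?_⟩
  rw [← rigidOn_univ_iff]
  have e : {z : V × W | z.1 ∈ Set.univ} = Set.univ := by
    ext z
    simp
  rwa [e] at hp

end Pool.Agent.T2H61.CP
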